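import Pool.Agent.Helper59.PWE.Poly
import Pool.Agent.Helper59.PWE.Alg

/-! Sign changes inside a box: boundary zero or interior critical point. -/

set_option autoImplicit false

namespace Pool.Agent.Helper59.EN

open Set

/-- closed box -/
def Bx {N : ℕ} (l u : Fin N → ℝ) : Set (Fin N → ℝ) := {x | ∀ i, l i ≤ x i ∧ x i ≤ u i}

theorem isCompact_Bx {N : ℕ} (l u : Fin N → ℝ) : IsCompact (Bx l u) := by
  have h : Bx l u = Set.pi Set.univ (fun i => Set.Icc (l i) (u i)) := by
    ext x
    exact ⟨fun h i _ => h i, fun h i => h i (Set.mem_univ i)⟩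
  rw [h]
  exact isCompact_univ_pi fun i => isCompact_Icc

/-- points of a facet are joined inside the facet -/
theorem facet_sign {N : ℕ} (l u : Fin N → ℝ) (G : (Fin N → ℝ) → ℝ) (hG : Continuous G)
    (i : Fin N) (b : ℝ)
    (hz : ∀ x ∈ Bx l u, x i = b → G x ≠ 0) (p q : Fin N → ℝ) (hp : p ∈ Bx l u) (hq : q ∈ Bx l u)
    (hpi : p i = b) (hqi : q i = b) (h : G p < 0) : G q < 0 := by
  have hconv : Convex ℝ {x | x ∈ Bx l u ∧ x i = b} := by
    intro x hx y hy s t hs ht hst
    refine ⟨fun j => ?_, ?_⟩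
    · have h1 := hx.1 j
      have h2 := hy.1 j
      simp only [Pi.add_apply, Pi.smul_apply, smul_eq_mul]
      constructor
      · have e1 := mul_le_mul_of_nonneg_left h1.1 hs
        have e2 := mul_le_mul_of_nonneg_left h2.1 ht
        have e3 : l j = s * l j + t * l j := by rw [← add_mul, hst, one_mul]
        rw [e3]
        exact add_le_add e1 e2
      · have e1 := mul_le_mul_of_nonneg_left h1.2 hs
        have e2 := mul_le_mul_of_nonneg_left h2.2 ht
        have e3 : u j = s * u j + t * u j := by rw [← add_mul, hst, one_mul]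
        rw [e3]
        exact add_le_add e1 e2
    · simp only [Pi.add_apply, Pi.smul_apply, smul_eq_mul]
      rw [hx.2, hy.2, ← add_mul, hst, one_mul]
  have hpre := hconv.isPreconnected
  by_contra hcon
  push Not at hcon
  have h0 : (0 : ℝ) ∈ G '' {x | x ∈ Bx l u ∧ x i = b} :=
    hpre.intermediate_value ⟨hp, hpi⟩ ⟨hq, hqi⟩ hG.continuousOn ⟨h.le, hcon⟩
  obtain ⟨x, hx, hx0⟩ := h0
  exact hz x hx.1 hx.2 hx0

/-- the sign is constant on the boundary -/
theorem bdry_sign {N : ℕ} (hN : 2 ≤ N) (l u : Fin N → ℝ) (hlu : ∀ i, l i < u i)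
    (G : (Fin N → ℝ) → ℝ) (hG : Continuous G)
    (hz : ∀ x ∈ Bx l u, (∃ i, x i = l i ∨ x i = u i) → G x ≠ 0)
    (p q : Fin N → ℝ) (hp : p ∈ Bx l u) (hq : q ∈ Bx l u) (i j : Fin N)
    (hpi : p i = l i ∨ p i = u i) (hqj : q j = l j ∨ q j = u j) (h : G p < 0) : G q < 0 := by
  -- a coordinate different from i
  have hupd : ∀ (w : Fin N → ℝ), w ∈ Bx l u → ∀ k, Function.update w k (l k) ∈ Bx l u := by
    intro w hw k k'
    by_cases hk : k' = k
    · subst hk
      rw [Function.update_self]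
      exact ⟨le_rfl, (hlu k').le⟩
    · rw [Function.update_of_ne hk]
      exact hw k'
  have step : ∀ (w w' : Fin N → ℝ) (k : Fin N), w ∈ Bx l u → w' ∈ Bx l u →
      (w k = l k ∨ w k = u k) → w' k = w k → G w < 0 → G w' < 0 := by
    intro w w' k hw hw' hk hkk hlt
    exact facet_sign l u G hG k (w k) (fun x hx hxk => hz x hx ⟨k, by rw [hxk]; exact hk⟩)
      w w' hw hw' rfl hkk hlt
  by_cases hij : i = j
  · subst hij
    obtain ⟨k, hk⟩ : ∃ k : Fin N, k ≠ i := by
      have : Nontrivial (Fin N) := Fin.nontrivial_iff_two_le.2 hN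
      exact exists_ne i
    have h1 : G (Function.update p k (l k)) < 0 :=
      step p _ i hp (hupd p hp k) hpi (Function.update_of_ne hk.symm _ _) h
    have h2 : G (Function.update q k (l k)) < 0 := by
      refine step _ _ k (hupd p hp k) (hupd q hq k) (Or.inl (Function.update_self _ _ _)) ?_ h1
      rw [Function.update_self, Function.update_self]
    refine step _ _ i (hupd q hq k) hq ?_ ?_ h2
    · rw [Function.update_of_ne hk.symm]
      exact hqj
    · rw [Function.update_of_ne hk.symm]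
  · have h1 : G (Function.update p j (q j)) < 0 := by
      refine step p _ i hp ?_ hpi (Function.update_of_ne hij _ _) h
      intro k
      by_cases hk : k = j
      · subst hk
        rw [Function.update_self]
        exact hq k
      · rw [Function.update_of_ne hk]
        exact hp k
    refine step _ _ j ?_ hq ?_ ?_ h1
    · intro k
      by_cases hk : k = j
      · subst hk
        rw [Function.update_self]
        exact hq k
      · rw [Function.update_of_ne hk]
        exact hp k
    · rw [Function.update_self]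
      exact hqj
    · rw [Function.update_self]

/-- boundary zero or interior local extremum -/
theorem sgn {N : ℕ} (hN : 2 ≤ N) (l u : Fin N → ℝ) (hlu : ∀ i, l i < u i)
    (G : (Fin N → ℝ) → ℝ) (hG : Continuous G)
    (hz : ∀ x ∈ Bx l u, (∃ i, x i = l i ∨ x i = u i) → G x ≠ 0)
    (p q : Fin N → ℝ) (hp : p ∈ Bx l u) (hq : q ∈ Bx l u) (hp0 : G p < 0) (hq0 : 0 < G q) :
    ∃ x, (∀ i, l i < x i ∧ x i < u i) ∧ IsLocalExtr G x := by
  have hc := isCompact_Bx l u
  obtain ⟨x, hx, hxm⟩ := hc.exists_isMinOn ⟨p, hp⟩ hG.continuousOn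
  obtain ⟨y, hy, hym⟩ := hc.exists_isMaxOn ⟨p, hp⟩ hG.continuousOn
  have hx0 : G x < 0 := (hxm hp).trans_lt hp0
  have hy0 : 0 < G y := hq0.trans_le (hym hq)
  have hopen : ∀ z : Fin N → ℝ, (∀ i, l i < z i ∧ z i < u i) → Bx l u ∈ nhds z := by
    intro z hz'
    have h1 : Set.pi Set.univ (fun i => Set.Ioo (l i) (u i)) ∈ nhds z :=
      (isOpen_set_pi Set.finite_univ fun i _ => isOpen_Ioo).mem_nhds fun i _ => hz' i
    refine Filter.mem_of_superset h1 ?_
    intro w hw i
    have := hw i (Set.mem_univ i)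
    exact ⟨this.1.le, this.2.le⟩
  by_cases h1 : ∀ i, l i < x i ∧ x i < u i
  · exact ⟨x, h1, Or.inl (hxm.isLocalMin (hopen x h1))⟩
  by_cases h2 : ∀ i, l i < y i ∧ y i < u i
  · exact ⟨y, h2, Or.inr (hym.isLocalMax (hopen y h2))⟩
  exfalso
  have hb : ∀ z ∈ Bx l u, (¬ ∀ i, l i < z i ∧ z i < u i) → ∃ i, z i = l i ∨ z i = u i := by
    intro z hz' hn
    push Not at hn
    obtain ⟨i, hi⟩ := hn
    refine ⟨i, ?_⟩
    rcases (hz' i).1.eq_or_lt with h3 | h3
    · exact Or.inl h3.symm
    · exact Or.inr (le_antisymm (hz' i).2 (hi h3))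
  obtain ⟨i, hi⟩ := hb x hx h1
  obtain ⟨j, hj⟩ := hb y hy h2
  have h3 := bdry_sign hN l u hlu G hG hz x y hx hy i j hi hj hx0
  linarith

end Pool.Agent.Helper59.EN
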