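import Pool.Agent.Helper59.EN.Count

/-! The counting theorem. -/

set_option autoImplicit false

namespace Pool.Agent.Helper59.EN

open Set MvPolynomial MeasureTheory
open scoped ENNReal

variable {m : ℕ}

open Classical in
/-- trivial bound for the number of cells -/
theorem trivial_count (R δ : ℝ) (hR : 1 ≤ R) (hδ : 0 < δ) (hδ1 : δ ≤ 1) {ι : Type} (I : Finset ι)
    (x : ι → Fin m → ℝ) (hx : ∀ X ∈ I, ∀ i, |x X i| ≤ R)
    (hcell : ∀ X ∈ I, ∀ Y ∈ I, (∀ i, ⌊x X i / δ⌋ = ⌊x Y i / δ⌋) → X = Y) :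
    (I.card : ℝ) ≤ (5 * R / δ) ^ m := by
  set M : ℤ := ⌊R / δ + 1⌋ with hM
  have hRδ : 1 ≤ R / δ := by
    rw [le_div_iff₀ hδ]
    linarith
  have h1 : I.card ≤ (Fintype.piFinset (fun _ : Fin m => Finset.Icc (-M) M)).card := by
    refine Finset.card_le_card_of_injOn (fun X => fun i => ⌊x X i / δ⌋) ?_ ?_
    · intro X hX
      rw [Finset.mem_coe, Fintype.mem_piFinset]
      intro i
      rw [Finset.mem_Icc]
      have e1 := abs_le.1 (hx X hX i)
      have e2 : x X i / δ ≤ R / δ := div_le_div_of_nonneg_right e1.2 hδ.le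
      have e3 : -(R / δ) ≤ x X i / δ := by
        rw [← neg_div]
        exact div_le_div_of_nonneg_right e1.1 hδ.le
      have e4 := Int.floor_le (x X i / δ)
      have e5 := Int.lt_floor_add_one (x X i / δ)
      constructor
      · have e6 : ((-⌊x X i / δ⌋ : ℤ) : ℝ) ≤ R / δ + 1 := by push_cast; linarith
        have e7 := Int.le_floor.2 e6
        show -M ≤ ⌊x X i / δ⌋
        omega
      · apply Int.le_floor.2
        linarith
    · intro X hX Y hY h
      exact hcell X hX Y hY fun i => congrFun h i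
  rw [Fintype.card_piFinset, Finset.prod_const, Finset.card_univ, Fintype.card_fin, Int.card_Icc] at h1
  have hM0 : 0 ≤ M := Int.floor_nonneg.2 (by linarith)
  have h2 : (((M + 1 - -M).toNat : ℕ) : ℝ) ≤ 5 * R / δ := by
    rw [← Int.cast_natCast, Int.toNat_of_nonneg (by omega)]
    push_cast
    have h3 : (M : ℝ) ≤ R / δ + 1 := Int.floor_le _
    have h4 : 5 * R / δ = 5 * (R / δ) := by ring
    rw [h4]
    linarith
  calc (I.card : ℝ) ≤ (((M + 1 - -M).toNat ^ m : ℕ) : ℝ) := by exact_mod_cast h1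
    _ = (((M + 1 - -M).toNat : ℕ) : ℝ) ^ m := by push_cast; rfl
    _ ≤ (5 * R / δ) ^ m := pow_le_pow_left₀ (Nat.cast_nonneg _) h2 m

open Classical in
/-- COUNTING THEOREM -/
theorem count (m D : ℕ) : ∃ C : ℝ, 0 < C ∧ ∀ R : ℝ, 1 ≤ R →
    ∀ F : MvPolynomial (Fin (m + 1)) ℝ, F ≠ 0 → F.totalDegree ≤ D →
    ∀ (δ K lam : ℝ), 0 < δ → δ ≤ 1 → 1 ≤ K → K * δ ≤ 1 → 0 < lam →
    ∀ {ι : Type} (I : Finset ι) (a x : ι → Fin m → ℝ) (T : ι → Finset ℤ),
    (∀ X ∈ I, ∀ i, |a X i| ≤ R ∧ |x X i| ≤ R) →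
    (∀ X ∈ I, ∀ Y ∈ I, (∀ i, ⌊x X i / δ⌋ = ⌊x Y i / δ⌋) → X = Y) →
    (∀ X ∈ I, lam ≤ ((T X).card : ℝ)) →
    (∀ X ∈ I, ∀ k ∈ T X, |(k : ℝ) * δ| ≤ R) →
    (∀ X ∈ I, ∀ k ∈ T X, ∃ q : Fin (m + 1) → ℝ, eval q F = 0 ∧ |(k : ℝ) * δ - q 0| ≤ K * δ ∧
      ∀ i : Fin m, |a X i + (k : ℝ) * δ * x X i - q i.succ| ≤ K * δ) →
    (I.card : ℝ) ≤ C * R ^ (3 * m + 2) * K * (1 / (lam * δ)) ^ (2 * m + 2) * ((1 / δ) ^ m * δ) := by
  obtain ⟨C1, hC1, htup⟩ := tuple_bound m D
  obtain ⟨C2, hC2, hbad⟩ := bad_times m D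
  set c0 : ℝ := 16 * ((m : ℝ) + 1) ^ 2 with hc0
  have hc00 : 0 < c0 := by positivity
  set CF : ℝ := 5 ^ m * c0 ^ (2 * m + 2) +
    4 * 6 ^ (m + 1) * C1 * c0 ^ m * (C2 * ((6 * m + 13) ^ m * (4 * m + 9))) with hCF
  refine ⟨CF, by positivity, ?_⟩
  intro R hR
  set ρ : ℝ := R * (R + 2) with hρ
  have hρ0 : 0 < ρ := by positivity
  set B0 : ℝ := C2 * ((2 * (m + 2) * ρ + 1) ^ m * (2 * (m + 2) * (1 + R) + 1)) with hB0
  have hB00 : 0 < B0 := by positivity
  set CA : ℝ := (5 * R) ^ m * c0 ^ (2 * m + 2) with hCA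
  set CB : ℝ := 4 * (6 * R) ^ (m + 1) * C1 * c0 ^ m * B0 with hCB
  have hCA0 : 0 < CA := by positivity
  have hCB0 : 0 < CB := by positivity
  have hCC : CA + CB ≤ CF * R ^ (3 * m + 2) := by
    have hm0 : (0 : ℝ) ≤ m := Nat.cast_nonneg m
    have g1 : CA ≤ 5 ^ m * c0 ^ (2 * m + 2) * R ^ (3 * m + 2) := by
      have e1 : CA = 5 ^ m * c0 ^ (2 * m + 2) * R ^ m := by rw [hCA, mul_pow]; ring
      rw [e1]
      apply mul_le_mul_of_nonneg_left _ (by positivity)
      exact pow_le_pow_right₀ hR (by omega)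
    have g2 : CB ≤ 4 * 6 ^ (m + 1) * C1 * c0 ^ m * (C2 * ((6 * m + 13) ^ m * (4 * m + 9))) *
        R ^ (3 * m + 2) := by
      have e1 : 2 * (m + 2) * ρ + 1 ≤ (6 * m + 13) * R ^ 2 := by
        have e2 : ρ ≤ 3 * R ^ 2 := by rw [hρ]; nlinarith
        have e3 : (1 : ℝ) ≤ R ^ 2 := one_le_pow₀ hR
        have e4 : 2 * ((m : ℝ) + 2) * ρ ≤ 2 * (m + 2) * (3 * R ^ 2) :=
          mul_le_mul_of_nonneg_left e2 (by positivity)
        linarith
      have e5 : 2 * ((m : ℝ) + 2) * (1 + R) + 1 ≤ (4 * m + 9) * R := by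
        have e6 : 2 * ((m : ℝ) + 2) * (1 + R) ≤ 2 * (m + 2) * (2 * R) :=
          mul_le_mul_of_nonneg_left (by linarith) (by positivity)
        linarith
      have e7 : (2 * (m + 2) * ρ + 1) ^ m ≤ ((6 * m + 13) * R ^ 2) ^ m :=
        pow_le_pow_left₀ (by positivity) e1 m
      have e8 : B0 ≤ C2 * (((6 * m + 13) * R ^ 2) ^ m * ((4 * m + 9) * R)) := by
        rw [hB0]
        apply mul_le_mul_of_nonneg_left _ hC2.le
        exact mul_le_mul e7 e5 (by positivity) (by positivity)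
      calc CB ≤ 4 * (6 * R) ^ (m + 1) * C1 * c0 ^ m *
            (C2 * (((6 * m + 13) * R ^ 2) ^ m * ((4 * m + 9) * R))) := by
            rw [hCB]
            exact mul_le_mul_of_nonneg_left e8 (by positivity)
        _ = 4 * 6 ^ (m + 1) * C1 * c0 ^ m * (C2 * ((6 * m + 13) ^ m * (4 * m + 9))) *
            R ^ (3 * m + 2) := by
            have e9 : (6 * R) ^ (m + 1) = 6 ^ (m + 1) * R ^ (m + 1) := mul_pow _ _ _
            have e10 : ((6 * (m : ℝ) + 13) * R ^ 2) ^ m = (6 * (m : ℝ) + 13) ^ m * (R ^ 2) ^ m :=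
              mul_pow _ _ _
            have e11 : R ^ (3 * m + 2) = R ^ (m + 1) * (R ^ 2) ^ m * R := by
              rw [← pow_mul]
              ring
            rw [e9, e10, e11]
            ring
    calc CA + CB ≤ _ := add_le_add g1 g2
      _ = CF * R ^ (3 * m + 2) := by rw [hCF]; ring
  suffices hsuff : ∀ F : MvPolynomial (Fin (m + 1)) ℝ, F ≠ 0 → F.totalDegree ≤ D →
    ∀ (δ K lam : ℝ), 0 < δ → δ ≤ 1 → 1 ≤ K → K * δ ≤ 1 → 0 < lam →
    ∀ {ι : Type} (I : Finset ι) (a x : ι → Fin m → ℝ) (T : ι → Finset ℤ),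
    (∀ X ∈ I, ∀ i, |a X i| ≤ R ∧ |x X i| ≤ R) →
    (∀ X ∈ I, ∀ Y ∈ I, (∀ i, ⌊x X i / δ⌋ = ⌊x Y i / δ⌋) → X = Y) →
    (∀ X ∈ I, lam ≤ ((T X).card : ℝ)) →
    (∀ X ∈ I, ∀ k ∈ T X, |(k : ℝ) * δ| ≤ R) →
    (∀ X ∈ I, ∀ k ∈ T X, ∃ q : Fin (m + 1) → ℝ, eval q F = 0 ∧ |(k : ℝ) * δ - q 0| ≤ K * δ ∧
      ∀ i : Fin m, |a X i + (k : ℝ) * δ * x X i - q i.succ| ≤ K * δ) →
    (I.card : ℝ) ≤ (CA + CB) * K * (1 / (lam * δ)) ^ (2 * m + 2) * ((1 / δ) ^ m * δ) by
    intro F hF hD δ K lam hδ hδ1 hK hKδ hlam ι I a x T hax hcell hT hTR hZ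
    refine (hsuff F hF hD δ K lam hδ hδ1 hK hKδ hlam I a x T hax hcell hT hTR hZ).trans ?_
    have hld : 0 < lam * δ := mul_pos hlam hδ
    have e1 : (CA + CB) * K * (1 / (lam * δ)) ^ (2 * m + 2) * ((1 / δ) ^ m * δ) =
      (CA + CB) * (K * (1 / (lam * δ)) ^ (2 * m + 2) * ((1 / δ) ^ m * δ)) := by ring
    have e2 : CF * R ^ (3 * m + 2) * K * (1 / (lam * δ)) ^ (2 * m + 2) * ((1 / δ) ^ m * δ) =
      CF * R ^ (3 * m + 2) * (K * (1 / (lam * δ)) ^ (2 * m + 2) * ((1 / δ) ^ m * δ)) := by ring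
    rw [e1, e2]
    exact mul_le_mul_of_nonneg_right hCC (by positivity)
  intro F hF hD δ K lam hδ hδ1 hK hKδ hlam ι I a x T hax hcell hT hTR hZ
  have hld : 0 < lam * δ := mul_pos hlam hδ
  have hQ : 0 ≤ K * (1 / (lam * δ)) ^ (2 * m + 2) * ((1 / δ) ^ m * δ) := by positivity
  by_cases hcase : lam < c0
  · -- few times: trivial bound
    have h1 := trivial_count R δ hR hδ hδ1 I x (fun X hX i => (hax X hX i).2) hcell
    have h2 : (1 / c0) ^ (2 * m + 2) ≤ (1 / (lam * δ)) ^ (2 * m + 2) * δ := by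
      have e1 : 1 / (c0 * δ) ≤ 1 / (lam * δ) := by
        apply one_div_le_one_div_of_le hld
        exact mul_le_mul_of_nonneg_right hcase.le hδ.le
      have e2 : (1 / (c0 * δ)) ^ (2 * m + 2) ≤ (1 / (lam * δ)) ^ (2 * m + 2) :=
        pow_le_pow_left₀ (by positivity) e1 _
      have e3 : (1 / c0) ^ (2 * m + 2) ≤ (1 / (c0 * δ)) ^ (2 * m + 2) * δ := by
        have e4 : (1 / (c0 * δ)) ^ (2 * m + 2) * δ = (1 / c0) ^ (2 * m + 2) * ((1 / δ) ^ (2 * m + 1)) := by
          have e5 : (1 / (c0 * δ)) ^ (2 * m + 2) = (1 / c0) ^ (2 * m + 2) * (1 / δ) ^ (2 * m + 2) := by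
            rw [← mul_pow]
            congr 1
            field_simp
          have e6 : (1 / δ) ^ (2 * m + 2) = (1 / δ) ^ (2 * m + 1) * (1 / δ) := pow_succ _ _
          rw [e5, e6]
          field_simp
        rw [e4]
        have e7 : 1 ≤ (1 / δ) ^ (2 * m + 1) := one_le_pow₀ (by
          rw [le_div_iff₀ hδ]
          linarith)
        have e8 : 0 ≤ (1 / c0) ^ (2 * m + 2) := by positivity
        calc (1 / c0) ^ (2 * m + 2) = (1 / c0) ^ (2 * m + 2) * 1 := (mul_one _).symm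
          _ ≤ _ := mul_le_mul_of_nonneg_left e7 e8
      exact e3.trans (mul_le_mul_of_nonneg_right e2 hδ.le)
    have h3 : (5 * R / δ) ^ m ≤ CA * K * (1 / (lam * δ)) ^ (2 * m + 2) * ((1 / δ) ^ m * δ) := by
      have e1 : (5 * R / δ) ^ m = (5 * R) ^ m * (1 / δ) ^ m := by
        rw [← mul_pow]
        congr 1
        ring
      have e2 : CA * K * (1 / (lam * δ)) ^ (2 * m + 2) * ((1 / δ) ^ m * δ) =
          (5 * R) ^ m * (1 / δ) ^ m * (K * (c0 ^ (2 * m + 2) * ((1 / (lam * δ)) ^ (2 * m + 2) * δ))) := by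
        rw [hCA]
        ring
      rw [e1, e2]
      have e3 : 1 ≤ K * (c0 ^ (2 * m + 2) * ((1 / (lam * δ)) ^ (2 * m + 2) * δ)) := by
        have e4 : 1 ≤ c0 ^ (2 * m + 2) * ((1 / (lam * δ)) ^ (2 * m + 2) * δ) := by
          calc (1 : ℝ) = c0 ^ (2 * m + 2) * (1 / c0) ^ (2 * m + 2) := by
                rw [← mul_pow, mul_one_div_cancel hc00.ne', one_pow]
            _ ≤ _ := mul_le_mul_of_nonneg_left h2 (by positivity)
        calc (1 : ℝ) ≤ K * 1 := by linarith
          _ ≤ _ := mul_le_mul_of_nonneg_left e4 (by linarith)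
      calc (5 * R) ^ m * (1 / δ) ^ m = (5 * R) ^ m * (1 / δ) ^ m * 1 := (mul_one _).symm
        _ ≤ _ := mul_le_mul_of_nonneg_left e3 (by positivity)
    calc (I.card : ℝ) ≤ CA * K * (1 / (lam * δ)) ^ (2 * m + 2) * ((1 / δ) ^ m * δ) := h1.trans h3
      _ ≤ (CA + CB) * K * (1 / (lam * δ)) ^ (2 * m + 2) * ((1 / δ) ^ m * δ) := by
          have e1 : (CA + CB) * K * (1 / (lam * δ)) ^ (2 * m + 2) * ((1 / δ) ^ m * δ) =
            CA * K * (1 / (lam * δ)) ^ (2 * m + 2) * ((1 / δ) ^ m * δ) +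
            CB * (K * (1 / (lam * δ)) ^ (2 * m + 2) * ((1 / δ) ^ m * δ)) := by ring
          rw [e1]
          have := mul_nonneg hCB0.le hQ
          linarith
  · push Not at hcase
    set r : ℝ := (K + R) * δ with hr
    have hr0 : 0 < r := by positivity
    have hrρ : r ≤ ρ := by
      have e1 : r = K * δ + R * δ := by rw [hr]; ring
      have e2 : R * δ ≤ R * 1 := mul_le_mul_of_nonneg_left hδ1 (by linarith)
      have e3 : ρ = R * R + 2 * R := by rw [hρ]; ring
      nlinarith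
    set ρ' : ℝ := 2 * (m + 2) * ρ with hρ'
    set r' : ℝ := 2 * (m + 2) * r with hr'
    have hm2 : (0 : ℝ) < 2 * ((m : ℝ) + 2) := by positivity
    have hr'0 : 0 < r' := by positivity
    have hρ'0 : 0 < ρ' := by positivity
    have hr'ρ' : r' ≤ ρ' := mul_le_mul_of_nonneg_left hrρ hm2.le
    set θ : ℝ := 2 * B0 * K / lam with hθ
    have hθ0 : 0 < θ := by positivity
    set g : ℝ := lam / c0 with hg
    have hg1 : 1 ≤ g := by
      rw [hg, le_div_iff₀ hc00]
      linarith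
    have hRρ' : R ≤ ρ' := by
      have e1 : R ≤ ρ := by
        rw [hρ]
        nlinarith
      have e2 : ρ ≤ ρ' := by
        rw [hρ']
        have : (1 : ℝ) ≤ 2 * ((m : ℝ) + 2) := by
          have : (0 : ℝ) ≤ m := Nat.cast_nonneg m
          linarith
        nlinarith
      linarith
    -- good times
    let good : ℤ → Prop := fun k => volume (Sl F ((k : ℝ) * δ) ρ' r') ≤ ENNReal.ofReal θ
    have hgood : ∀ X ∈ I, lam / 2 ≤ (((T X).filter good).card : ℝ) := by
      intro X hX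
      have e1 := hbad F hF hD ρ' r' δ θ hr'0 hr'ρ' hδ hθ0 ((T X).filter (fun k => ¬ good k))
        (fun k hk => (hTR X hX k (Finset.mem_filter.1 hk).1).trans hRρ')
        (fun k hk => not_le.1 (Finset.mem_filter.1 hk).2)
      have e2 : C2 * ((ρ' + δ) ^ m * (r' + δ)) ≤ B0 * K * δ := by
        have e3 : (ρ' + δ) ^ m ≤ (2 * (m + 2) * ρ + 1) ^ m :=
          pow_le_pow_left₀ (by positivity) (by rw [hρ']; linarith) m
        have e4 : r' + δ ≤ (2 * (m + 2) * (1 + R) + 1) * (K * δ) := by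
          have e5 : r' + δ = 2 * (m + 2) * (K * δ + R * δ) + δ := by rw [hr', hr]; ring
          have e6 : R * δ ≤ R * (K * δ) := by
            have : δ ≤ K * δ := by nlinarith
            exact mul_le_mul_of_nonneg_left this (by linarith)
          have e7 : δ ≤ K * δ := by nlinarith
          rw [e5]
          have e8 : 2 * ((m : ℝ) + 2) * (K * δ + R * δ) ≤ 2 * (m + 2) * (K * δ + R * (K * δ)) :=
            mul_le_mul_of_nonneg_left (by linarith) hm2.le
          have e9 : (2 * ((m : ℝ) + 2) * (1 + R) + 1) * (K * δ) =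
            2 * (m + 2) * (K * δ + R * (K * δ)) + K * δ := by ring
          rw [e9]
          linarith
        calc C2 * ((ρ' + δ) ^ m * (r' + δ)) ≤
              C2 * ((2 * (m + 2) * ρ + 1) ^ m * ((2 * (m + 2) * (1 + R) + 1) * (K * δ))) := by
              apply mul_le_mul_of_nonneg_left _ hC2.le
              exact mul_le_mul e3 e4 (by positivity) (by positivity)
          _ = B0 * K * δ := by rw [hB0]; ring
      have e3 : (((T X).filter (fun k => ¬ good k)).card : ℝ) ≤ lam / 2 := by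
        have e4 := e1.trans e2
        have e5 : δ * θ = B0 * K * δ * (2 / lam) := by rw [hθ]; ring
        rw [e5] at e4
        have e6 : 0 < B0 * K * δ := by positivity
        have e7 : (((T X).filter (fun k => ¬ good k)).card : ℝ) * (2 / lam) ≤ 1 := by
          have e8 : B0 * K * δ * ((((T X).filter (fun k => ¬ good k)).card : ℝ) * (2 / lam)) ≤
              B0 * K * δ * 1 := by linarith
          exact le_of_mul_le_mul_left e8 e6
        rw [← mul_div_assoc, div_le_one hlam] at e7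
        linarith
      have e4 := Finset.card_filter_add_card_filter_not (s := T X) good
      have e5 : (((T X).filter good).card : ℝ) + (((T X).filter (fun k => ¬ good k)).card : ℝ) =
          (T X).card := by exact_mod_cast e4
      have := hT X hX
      linarith
    -- the tuples of a line
    let G : ι → Finset (Fin (m + 1) → ℤ) := fun X =>
      (Fintype.piFinset (fun _ : Fin (m + 1) => (T X).filter good)).filter
        (fun k => ∀ l l', l ≠ l' → g ≤ |((k l - k l' : ℤ) : ℝ)|)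
    have hG : ∀ X ∈ I, (1 / 2) * (lam / 2) ^ (m + 1) ≤ ((G X).card : ℝ) := by
      intro X hX
      have e1 := hgood X hX
      have e2 := gapcount m ((T X).filter good) g hg1 (by
        have e3 : 6 * ((m : ℝ) + 1) ^ 2 * g = (3 / 8) * lam := by
          rw [hg, hc0]
          field_simp
          ring
        rw [e3]
        linarith)
      refine le_trans ?_ e2
      apply mul_le_mul_of_nonneg_left _ (by norm_num)
      exact pow_le_pow_left₀ (by positivity) e1 _
    -- all tuples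
    let TT : Finset (Fin (m + 1) → ℤ) := (Fintype.piFinset (fun _ : Fin (m + 1) =>
      Finset.Icc (-⌊R / δ⌋) ⌊R / δ⌋)).filter
        (fun k => (∀ l l', l ≠ l' → g ≤ |((k l - k l' : ℤ) : ℝ)|) ∧ ∀ l, good (k l))
    have hTT : (TT.card : ℝ) ≤ (3 * R / δ) ^ (m + 1) := by
      have e1 : TT.card ≤ (Fintype.piFinset (fun _ : Fin (m + 1) =>
        Finset.Icc (-⌊R / δ⌋) ⌊R / δ⌋)).card := Finset.card_filter_le _ _
      rw [Fintype.card_piFinset, Finset.prod_const, Finset.card_univ, Fintype.card_fin,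
        Int.card_Icc] at e1
      have hRδ : 1 ≤ R / δ := by
        rw [le_div_iff₀ hδ]
        linarith
      have e0 : 0 ≤ ⌊R / δ⌋ := Int.floor_nonneg.2 (by linarith)
      have e2 : (((⌊R / δ⌋ + 1 - -⌊R / δ⌋).toNat : ℕ) : ℝ) ≤ 3 * R / δ := by
        rw [← Int.cast_natCast, Int.toNat_of_nonneg (by omega)]
        push_cast
        have e3 : (⌊R / δ⌋ : ℝ) ≤ R / δ := Int.floor_le _
        have e4 : 3 * R / δ = 3 * (R / δ) := by ring
        rw [e4]
        linarith
      calc (TT.card : ℝ) ≤ (((⌊R / δ⌋ + 1 - -⌊R / δ⌋).toNat ^ (m + 1) : ℕ) : ℝ) := by exact_mod_cast e1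
        _ = (((⌊R / δ⌋ + 1 - -⌊R / δ⌋).toNat : ℕ) : ℝ) ^ (m + 1) := by push_cast; rfl
        _ ≤ _ := pow_le_pow_left₀ (Nat.cast_nonneg _) e2 _
    have hGT : ∀ X ∈ I, G X ⊆ TT := by
      intro X hX k hk
      rw [Finset.mem_filter, Fintype.mem_piFinset] at hk
      rw [Finset.mem_filter, Fintype.mem_piFinset]
      refine ⟨fun l => ?_, hk.2, fun l => (Finset.mem_filter.1 (hk.1 l)).2⟩
      have e1 := hTR X hX _ (Finset.mem_filter.1 (hk.1 l)).1
      rw [abs_mul, abs_of_pos hδ, ← le_div_iff₀ hδ] at e1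
      have e2 := abs_le.1 e1
      rw [Finset.mem_Icc]
      constructor
      · have e3 : ((-(k l) : ℤ) : ℝ) ≤ R / δ := by push_cast; linarith
        have e4 := Int.le_floor.2 e3
        omega
      · exact Int.le_floor.2 e2.2
    -- one tuple
    have hone : ∀ k ∈ TT, ((I.filter (fun X => k ∈ G X)).card : ℝ) * δ ^ m ≤
        C1 * (1 / (g * δ)) ^ m * θ := by
      intro k hk
      rw [Finset.mem_filter] at hk
      refine htup F hD ρ r δ g θ R hρ0 hr0 hδ (by linarith) hθ0.le (by linarith) k hk.2.1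
        hk.2.2 _ x ?_ ?_
      · intro X hX Y hY h
        exact hcell X (Finset.mem_filter.1 hX).1 Y (Finset.mem_filter.1 hY).1 h
      · intro X hX y hy
        obtain ⟨hXI, hXG⟩ := Finset.mem_filter.1 hX
        rw [Finset.mem_filter, Fintype.mem_piFinset] at hXG
        refine ⟨a X, fun l => ?_⟩
        have hkT := (Finset.mem_filter.1 (hXG.1 l)).1
        have hkR := hTR X hXI _ hkT
        obtain ⟨q, hq0, hqt, hqs⟩ := hZ X hXI _ hkT
        have hclose := Ce_close δ hδ (x X) y hy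
        refine ⟨fun i => ?_, q, hq0, ?_, fun i => ?_⟩
        · show |a X i + (k l : ℝ) * δ * y i| ≤ ρ
          have e1 := (hax X hXI i).1
          have e2 := (hax X hXI i).2
          have e3 := hclose i
          have e4 : |y i| ≤ R + 1 := by
            have := abs_le.1 e3
            have := abs_le.1 e2
            rw [abs_le]
            constructor <;> linarith
          have e5 : |(k l : ℝ) * δ * y i| ≤ R * (R + 1) := by
            rw [abs_mul]
            exact mul_le_mul hkR e4 (abs_nonneg _) (by linarith)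
          calc |a X i + (k l : ℝ) * δ * y i| ≤ |a X i| + |(k l : ℝ) * δ * y i| := abs_add_le _ _
            _ ≤ R + R * (R + 1) := add_le_add e1 e5
            _ = ρ := by rw [hρ]; ring
        · refine hqt.trans ?_
          rw [hr]
          have : 0 ≤ R * δ := by positivity
          linarith
        · show |a X i + (k l : ℝ) * δ * y i - q i.succ| ≤ r
          have e1 : a X i + (k l : ℝ) * δ * y i - q i.succ =
              (a X i + (k l : ℝ) * δ * x X i - q i.succ) + (k l : ℝ) * δ * (y i - x X i) := by ring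
          have e2 : |(k l : ℝ) * δ * (y i - x X i)| ≤ R * δ := by
            rw [abs_mul]
            exact mul_le_mul hkR (hclose i) (abs_nonneg _) (by linarith)
          rw [e1]
          calc _ ≤ |a X i + (k l : ℝ) * δ * x X i - q i.succ| + |(k l : ℝ) * δ * (y i - x X i)| :=
                abs_add_le _ _
            _ ≤ K * δ + R * δ := add_le_add (hqs i) e2
            _ = r := by rw [hr]; ring
    -- double counting
    have hdc : (I.card : ℝ) * ((1 / 2) * (lam / 2) ^ (m + 1)) * δ ^ m ≤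
        (3 * R / δ) ^ (m + 1) * (C1 * (1 / (g * δ)) ^ m * θ) := by
      have e1 : (I.card : ℝ) * ((1 / 2) * (lam / 2) ^ (m + 1)) ≤ ∑ X ∈ I, ((G X).card : ℝ) := by
        rw [← nsmul_eq_mul]
        exact Finset.card_nsmul_le_sum _ _ _ hG
      have e2 : ∑ X ∈ I, ((G X).card : ℝ) = ∑ k ∈ TT, ((I.filter (fun X => k ∈ G X)).card : ℝ) := by
        have e3 : ∀ X ∈ I, ((G X).card : ℝ) = ∑ k ∈ TT, if k ∈ G X then (1 : ℝ) else 0 := by
          intro X hX
          rw [Finset.sum_ite_mem, Finset.inter_eq_right.2 (hGT X hX), Finset.sum_const, nsmul_eq_mul,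
            mul_one]
        rw [Finset.sum_congr rfl e3, Finset.sum_comm]
        refine Finset.sum_congr rfl fun k _ => ?_
        rw [Finset.sum_ite, Finset.sum_const_zero, add_zero, Finset.sum_const, nsmul_eq_mul, mul_one]
      rw [e2] at e1
      calc (I.card : ℝ) * ((1 / 2) * (lam / 2) ^ (m + 1)) * δ ^ m ≤
            (∑ k ∈ TT, ((I.filter (fun X => k ∈ G X)).card : ℝ)) * δ ^ m :=
            mul_le_mul_of_nonneg_right e1 (by positivity)
        _ = ∑ k ∈ TT, ((I.filter (fun X => k ∈ G X)).card : ℝ) * δ ^ m := Finset.sum_mul _ _ _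
        _ ≤ ∑ _k ∈ TT, C1 * (1 / (g * δ)) ^ m * θ := Finset.sum_le_sum hone
        _ = (TT.card : ℝ) * (C1 * (1 / (g * δ)) ^ m * θ) := by rw [Finset.sum_const, nsmul_eq_mul]
        _ ≤ _ := mul_le_mul_of_nonneg_right hTT (by positivity)
    have hfin : (I.card : ℝ) ≤ CB * K * (1 / (lam * δ)) ^ (2 * m + 2) * ((1 / δ) ^ m * δ) := by
      have e0 : 0 < ((1 / 2) * (lam / 2) ^ (m + 1)) * δ ^ m := by positivity
      have e1 : (I.card : ℝ) ≤ (3 * R / δ) ^ (m + 1) * (C1 * (1 / (g * δ)) ^ m * θ) /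
          (((1 / 2) * (lam / 2) ^ (m + 1)) * δ ^ m) := by
        rw [le_div_iff₀ e0, ← mul_assoc]
        exact hdc
      refine e1.trans (le_of_eq ?_)
      have e2 : 1 / (g * δ) = c0 * (1 / (lam * δ)) := by
        rw [hg]
        field_simp
      have e3 : (3 * R / δ) ^ (m + 1) = (3 * R) ^ (m + 1) * (1 / δ) ^ (m + 1) := by
        rw [← mul_pow]
        congr 1
        ring
      have e4 : (6 * R) ^ (m + 1) = 2 ^ (m + 1) * (3 * R) ^ (m + 1) := by
        rw [← mul_pow]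
        congr 1
        ring
      have e5 : (lam / 2) ^ (m + 1) = lam ^ (m + 1) / 2 ^ (m + 1) := div_pow _ _ _
      have e6 : (1 / (lam * δ)) ^ (2 * m + 2) = (1 / (lam * δ)) ^ m * (1 / lam) ^ (m + 1) *
          (1 / δ) ^ (m + 1) * (1 / (lam * δ)) := by
        have e7 : (1 / (lam * δ)) ^ (2 * m + 2) = (1 / (lam * δ)) ^ m * (1 / (lam * δ)) ^ (m + 1) *
            (1 / (lam * δ)) := by ring
        have e8 : (1 / (lam * δ)) ^ (m + 1) = (1 / lam) ^ (m + 1) * (1 / δ) ^ (m + 1) := by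
          rw [← mul_pow]
          congr 1
          field_simp
        rw [e7, e8]
        ring
      rw [e2, e3, e5, hθ, e6, hCB, e4, mul_pow c0]
      simp only [one_div, inv_pow]
      field_simp
      ring
    calc (I.card : ℝ) ≤ CB * K * (1 / (lam * δ)) ^ (2 * m + 2) * ((1 / δ) ^ m * δ) := hfin
      _ ≤ (CA + CB) * K * (1 / (lam * δ)) ^ (2 * m + 2) * ((1 / δ) ^ m * δ) := by
          have e1 : (CA + CB) * K * (1 / (lam * δ)) ^ (2 * m + 2) * ((1 / δ) ^ m * δ) =
            CB * K * (1 / (lam * δ)) ^ (2 * m + 2) * ((1 / δ) ^ m * δ) +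
            CA * (K * (1 / (lam * δ)) ^ (2 * m + 2) * ((1 / δ) ^ m * δ)) := by ring
          rw [e1]
          have := mul_nonneg hCA0.le hQ
          linarith

end Pool.Agent.Helper59.EN
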