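import Mathlib

/-! Tuples with gaps. -/

set_option autoImplicit false

namespace Pool.Agent.Helper59.EN

open Finset

theorem near_card (w : ℤ) (g : ℝ) (hg : 1 ≤ g) (S : Finset ℤ) (hS : ∀ z ∈ S, |((z - w : ℤ) : ℝ)| < g) :
    (S.card : ℝ) ≤ 3 * g := by
  have h1 : S ⊆ Finset.Icc (w - ⌊g⌋) (w + ⌊g⌋) := by
    intro z hz
    have h2 := abs_lt.1 (hS z hz)
    rw [Finset.mem_Icc]
    push_cast at h2
    constructor
    · have h3 : ((w - z : ℤ) : ℝ) ≤ g := by push_cast; linarith
      have h4 := Int.le_floor.2 h3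
      omega
    · have h3 : ((z - w : ℤ) : ℝ) ≤ g := by push_cast; linarith
      have h4 := Int.le_floor.2 h3
      omega
  have h2 := Finset.card_le_card h1
  rw [Int.card_Icc] at h2
  have h3 : (⌊g⌋ : ℝ) ≤ g := Int.floor_le g
  have h4 : (0 : ℤ) ≤ ⌊g⌋ := Int.floor_nonneg.2 (by linarith)
  have h5 : ((w + ⌊g⌋ + 1 - (w - ⌊g⌋)).toNat : ℝ) = 2 * (⌊g⌋ : ℝ) + 1 := by
    have h6 : (w + ⌊g⌋ + 1 - (w - ⌊g⌋)).toNat = ((2 * ⌊g⌋ + 1).toNat) := by
      congr 1
      ring
    rw [h6]
    rw [← Int.cast_natCast, Int.toNat_of_nonneg (by omega)]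
    push_cast
    ring
  calc (S.card : ℝ) ≤ ((w + ⌊g⌋ + 1 - (w - ⌊g⌋)).toNat : ℝ) := by exact_mod_cast h2
    _ = 2 * (⌊g⌋ : ℝ) + 1 := h5
    _ ≤ 3 * g := by linarith

open Classical in
theorem gapcount (m : ℕ) (T : Finset ℤ) (g : ℝ) (hg : 1 ≤ g)
    (h : 6 * ((m : ℝ) + 1) ^ 2 * g ≤ T.card) :
    (1 / 2) * (T.card : ℝ) ^ (m + 1) ≤ (((Fintype.piFinset (fun _ : Fin (m + 1) => T)).filter
      (fun k => ∀ l l', l ≠ l' → g ≤ |((k l - k l' : ℤ) : ℝ)|)).card : ℝ) := by
  set P := Fintype.piFinset (fun _ : Fin (m + 1) => T) with hP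
  have hPc : (P.card : ℝ) = (T.card : ℝ) ^ (m + 1) := by
    rw [hP, Fintype.card_piFinset, Finset.prod_const, Finset.card_univ, Fintype.card_fin]
    push_cast
    rfl
  -- the bad tuples
  have hbad : ∀ l l' : Fin (m + 1), l ≠ l' →
      ((P.filter (fun k => |((k l - k l' : ℤ) : ℝ)| < g)).card : ℝ) ≤ 3 * g * (T.card : ℝ) ^ m := by
    intro l l' hl
    obtain ⟨j, hj⟩ := Fin.exists_succAbove_eq hl.symm
    set s := P.filter (fun k => |((k l - k l' : ℤ) : ℝ)| < g) with hs
    have h1 : s.card ≤ ⌊3 * g⌋₊ * (s.image (fun k : Fin (m + 1) → ℤ => fun i : Fin m =>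
        k (l.succAbove i))).card := by
      apply Finset.card_le_mul_card_image
      intro w _
      apply Nat.le_floor
      set s' := s.filter (fun k : Fin (m + 1) → ℤ => (fun i : Fin m => k (l.succAbove i)) = w) with hs'
      have hinj : Set.InjOn (fun k : Fin (m + 1) → ℤ => k l) s' := by
        intro k hk k' hk' he
        rw [Finset.mem_coe, hs', Finset.mem_filter] at hk hk'
        funext i
        by_cases hi : i = l
        · rw [hi]
          exact he
        · obtain ⟨i', rfl⟩ := Fin.exists_succAbove_eq hi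
          have e1 : k (l.succAbove i') = w i' := congrFun hk.2 i'
          have e2 : k' (l.succAbove i') = w i' := congrFun hk'.2 i'
          rw [e1, e2]
      rw [← Finset.card_image_of_injOn hinj]
      apply near_card (w j) g hg
      intro z hz
      rw [Finset.mem_image] at hz
      obtain ⟨k, hk, rfl⟩ := hz
      rw [hs', Finset.mem_filter, hs, Finset.mem_filter] at hk
      have e1 : k (l.succAbove j) = w j := congrFun hk.2 j
      rw [hj] at e1
      rw [← e1]
      exact hk.1.2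
    have h2 : (s.image (fun k : Fin (m + 1) → ℤ => fun i : Fin m => k (l.succAbove i))).card ≤
        T.card ^ m := by
      have h3 : s.image (fun k : Fin (m + 1) → ℤ => fun i : Fin m => k (l.succAbove i)) ⊆
          Fintype.piFinset (fun _ : Fin m => T) := by
        intro w hw
        rw [Finset.mem_image] at hw
        obtain ⟨k, hk, rfl⟩ := hw
        rw [hs, Finset.mem_filter, hP, Fintype.mem_piFinset] at hk
        rw [Fintype.mem_piFinset]
        intro i
        exact hk.1 _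
      refine (Finset.card_le_card h3).trans (le_of_eq ?_)
      rw [Fintype.card_piFinset, Finset.prod_const, Finset.card_univ, Fintype.card_fin]
    have h4 : ((⌊3 * g⌋₊ : ℕ) : ℝ) ≤ 3 * g := Nat.floor_le (by linarith)
    calc (s.card : ℝ) ≤ ((⌊3 * g⌋₊ * T.card ^ m : ℕ) : ℝ) := by
          exact_mod_cast h1.trans (Nat.mul_le_mul_left _ h2)
      _ = (⌊3 * g⌋₊ : ℝ) * (T.card : ℝ) ^ m := by push_cast; rfl
      _ ≤ 3 * g * (T.card : ℝ) ^ m := mul_le_mul_of_nonneg_right h4 (by positivity)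
  have hsub : P ⊆ (P.filter (fun k => ∀ l l', l ≠ l' → g ≤ |((k l - k l' : ℤ) : ℝ)|)) ∪
      ((Finset.univ : Finset (Fin (m + 1) × Fin (m + 1))).filter (fun z => z.1 ≠ z.2)).biUnion
        (fun z => P.filter (fun k => |((k z.1 - k z.2 : ℤ) : ℝ)| < g)) := by
    intro k hk
    rw [Finset.mem_union]
    by_cases hk2 : ∀ l l', l ≠ l' → g ≤ |((k l - k l' : ℤ) : ℝ)|
    · left
      exact Finset.mem_filter.2 ⟨hk, hk2⟩
    · right
      push Not at hk2
      obtain ⟨l, l', hl, hlt⟩ := hk2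
      rw [Finset.mem_biUnion]
      exact ⟨(l, l'), Finset.mem_filter.2 ⟨Finset.mem_univ _, hl⟩, Finset.mem_filter.2 ⟨hk, hlt⟩⟩
  have h1 := Finset.card_le_card hsub
  have h2 := h1.trans (Finset.card_union_le _ _)
  have h3 : (((((Finset.univ : Finset (Fin (m + 1) × Fin (m + 1))).filter (fun z => z.1 ≠ z.2)).biUnion
        (fun z => P.filter (fun k => |((k z.1 - k z.2 : ℤ) : ℝ)| < g))).card : ℕ) : ℝ) ≤
      ((m : ℝ) + 1) ^ 2 * (3 * g * (T.card : ℝ) ^ m) := by
    have h4 : ((((Finset.univ : Finset (Fin (m + 1) × Fin (m + 1))).filter (fun z => z.1 ≠ z.2)).biUnion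
        (fun z => P.filter (fun k => |((k z.1 - k z.2 : ℤ) : ℝ)| < g))).card : ℝ) ≤
        ∑ z ∈ (Finset.univ : Finset (Fin (m + 1) × Fin (m + 1))).filter (fun z => z.1 ≠ z.2),
          ((P.filter (fun k => |((k z.1 - k z.2 : ℤ) : ℝ)| < g)).card : ℝ) := by
      exact_mod_cast Finset.card_biUnion_le
    refine h4.trans ?_
    calc _ ≤ ∑ z ∈ (Finset.univ : Finset (Fin (m + 1) × Fin (m + 1))).filter (fun z => z.1 ≠ z.2),
          3 * g * (T.card : ℝ) ^ m := by
            refine Finset.sum_le_sum fun z hz => ?_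
            rw [Finset.mem_filter] at hz
            exact hbad z.1 z.2 hz.2
      _ = (((Finset.univ : Finset (Fin (m + 1) × Fin (m + 1))).filter (fun z => z.1 ≠ z.2)).card : ℝ) *
          (3 * g * (T.card : ℝ) ^ m) := by
            rw [Finset.sum_const, nsmul_eq_mul]
      _ ≤ ((m : ℝ) + 1) ^ 2 * (3 * g * (T.card : ℝ) ^ m) := by
            apply mul_le_mul_of_nonneg_right _ (by positivity)
            have h5 := Finset.card_filter_le (Finset.univ : Finset (Fin (m + 1) × Fin (m + 1)))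
              (fun z => z.1 ≠ z.2)
            rw [Finset.card_univ, Fintype.card_prod, Fintype.card_fin] at h5
            calc _ ≤ (((m + 1) * (m + 1) : ℕ) : ℝ) := by exact_mod_cast h5
              _ = ((m : ℝ) + 1) ^ 2 := by push_cast; ring
  have h4 : ((m : ℝ) + 1) ^ 2 * (3 * g * (T.card : ℝ) ^ m) ≤ (1 / 2) * (T.card : ℝ) ^ (m + 1) := by
    have h5 := mul_le_mul_of_nonneg_right h (show (0 : ℝ) ≤ (T.card : ℝ) ^ m by positivity)
    have h6 : (T.card : ℝ) ^ (m + 1) = (T.card : ℝ) ^ m * T.card := pow_succ _ _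
    rw [h6]
    linarith
  have h5 : (P.card : ℝ) ≤ (((P.filter (fun k => ∀ l l', l ≠ l' → g ≤ |((k l - k l' : ℤ) : ℝ)|)).card : ℕ) : ℝ) +
      ((((Finset.univ : Finset (Fin (m + 1) × Fin (m + 1))).filter (fun z => z.1 ≠ z.2)).biUnion
        (fun z => P.filter (fun k => |((k z.1 - k z.2 : ℤ) : ℝ)| < g))).card : ℝ) := by
    exact_mod_cast h2
  rw [hPc] at h5
  linarith

end Pool.Agent.Helper59.EN
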