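import Pool.Agent.Helper59.EN.Wol
import Pool.Agent.Helper59.EN.Gap

/-! The counting theorem for lines that spend many times near a hypersurface of bounded degree. -/

set_option autoImplicit false

namespace Pool.Agent.Helper59.EN

open Set MvPolynomial MeasureTheory
open scoped ENNReal

variable {m : ℕ}

/-- the cell of side `δ` -/
def Ce (δ : ℝ) (x : Fin m → ℝ) : Set (Fin m → ℝ) := {y | ∀ i, ⌊y i / δ⌋ = ⌊x i / δ⌋}

theorem Ce_eq (δ : ℝ) (hδ : 0 < δ) (x : Fin m → ℝ) : Ce δ x =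
    Set.pi Set.univ (fun i => Set.Ico ((⌊x i / δ⌋ : ℝ) * δ) (((⌊x i / δ⌋ : ℝ) + 1) * δ)) := by
  ext y
  constructor
  · intro h i _
    show y i ∈ Set.Ico ((⌊x i / δ⌋ : ℝ) * δ) (((⌊x i / δ⌋ : ℝ) + 1) * δ)
    rw [← h i]
    constructor
    · rw [← le_div_iff₀ hδ]
      exact Int.floor_le _
    · rw [← div_lt_iff₀ hδ]
      exact Int.lt_floor_add_one _
  · intro h i
    have h1 := h i (Set.mem_univ i)
    rw [Int.floor_eq_iff]
    constructor
    · rw [le_div_iff₀ hδ]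
      exact h1.1
    · rw [div_lt_iff₀ hδ]
      exact h1.2

theorem Ce_meas (δ : ℝ) (hδ : 0 < δ) (x : Fin m → ℝ) : MeasurableSet (Ce δ x) := by
  rw [Ce_eq δ hδ]
  exact MeasurableSet.univ_pi fun _ => measurableSet_Ico

theorem Ce_vol (δ : ℝ) (hδ : 0 < δ) (x : Fin m → ℝ) : volume (Ce δ x) = ENNReal.ofReal (δ ^ m) := by
  rw [Ce_eq δ hδ, Real.volume_pi_Ico]
  have e1 : ∀ i : Fin m, (((⌊x i / δ⌋ : ℝ) + 1) * δ) - ((⌊x i / δ⌋ : ℝ) * δ) = δ := by
    intro i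
    ring
  simp_rw [e1]
  rw [Finset.prod_const, Finset.card_univ, Fintype.card_fin, ENNReal.ofReal_pow hδ.le]

theorem Ce_close (δ : ℝ) (hδ : 0 < δ) (x y : Fin m → ℝ) (h : y ∈ Ce δ x) (i : Fin m) :
    |y i - x i| ≤ δ := by
  have h1 := Int.floor_le (y i / δ)
  have h2 := Int.lt_floor_add_one (y i / δ)
  have h3 := Int.floor_le (x i / δ)
  have h4 := Int.lt_floor_add_one (x i / δ)
  rw [h i] at h1 h2
  have h5 : |y i / δ - x i / δ| ≤ 1 := by
    rw [abs_le]; constructor <;> linarith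
  rwa [← sub_div, abs_div, abs_of_pos hδ, div_le_iff₀ hδ, one_mul] at h5

/-- one tuple of times -/
theorem tuple_bound (m D : ℕ) : ∃ C : ℝ, 0 < C ∧ ∀ F : MvPolynomial (Fin (m + 1)) ℝ,
    F.totalDegree ≤ D → ∀ (ρ r δ g θ R : ℝ), 0 < ρ → 0 < r → 0 < δ → 0 < g → 0 ≤ θ → 0 ≤ R →
    ∀ (k : Fin (m + 1) → ℤ), (∀ l l', l ≠ l' → g ≤ |((k l - k l' : ℤ) : ℝ)|) →
    (∀ l, volume (Sl F ((k l : ℝ) * δ) (2 * (m + 2) * ρ) (2 * (m + 2) * r)) ≤ ENNReal.ofReal θ) →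
    ∀ {ι : Type} (J : Finset ι) (x : ι → Fin m → ℝ),
    (∀ X ∈ J, ∀ Y ∈ J, (∀ i, ⌊x X i / δ⌋ = ⌊x Y i / δ⌋) → X = Y) →
    (∀ X ∈ J, ∀ y ∈ Ce δ (x X), ∃ a : Fin m → ℝ, ∀ l, a + ((k l : ℝ) * δ) • y ∈
      Sl F ((k l : ℝ) * δ) ρ r) →
    (J.card : ℝ) * δ ^ m ≤ C * (1 / (g * δ)) ^ m * θ := by
  obtain ⟨C0, hC0⟩ := wolffS m D
  refine ⟨(m + 1) * (C0 + 1), by positivity, ?_⟩
  intro F hD ρ r δ g θ R hρ hr hδ hg hθ hR k hgap hvol ι J x hcell hin
  have htinj : Function.Injective (fun l => (k l : ℝ) * δ) := by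
    intro l l' h
    by_contra hne
    have h1 := hgap l l' hne
    have h2 : (k l : ℝ) = (k l' : ℝ) := mul_right_cancel₀ hδ.ne' h
    push_cast at h1
    rw [h2, sub_self, abs_zero] at h1
    linarith
  have hW := hC0 F hD ρ r hρ hr (fun l => (k l : ℝ) * δ) htinj
  have hwgt : ∀ l, PWE.wgt (fun l => (k l : ℝ) * δ) l ≤ (1 / (g * δ)) ^ m := by
    intro l
    unfold PWE.wgt
    rw [Finset.abs_prod, ← Finset.prod_inv_distrib]
    have h1 : (Finset.univ.erase l : Finset (Fin (m + 1))).card = m := by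
      rw [Finset.card_erase_of_mem (Finset.mem_univ l), Finset.card_univ, Fintype.card_fin]
      rfl
    calc _ ≤ ∏ _j ∈ Finset.univ.erase l, (1 / (g * δ)) := by
          refine Finset.prod_le_prod (fun j _ => inv_nonneg.2 (abs_nonneg _)) fun j hj => ?_
          have h2 := hgap l j (Finset.ne_of_mem_erase hj).symm
          have h3 : g * δ ≤ |(k l : ℝ) * δ - (k j : ℝ) * δ| := by
            rw [← sub_mul, abs_mul, abs_of_pos hδ]
            push_cast at h2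
            exact mul_le_mul_of_nonneg_right h2 hδ.le
          rw [one_div]
          exact inv_anti₀ (by positivity) h3
      _ = (1 / (g * δ)) ^ m := by rw [Finset.prod_const, h1]
  have h1 : (J.card : ℝ≥0∞) * ENNReal.ofReal (δ ^ m) ≤
      volume {y : Fin m → ℝ | ∃ a : Fin m → ℝ, ∀ l, a + ((k l : ℝ) * δ) • y ∈
        Sl F ((k l : ℝ) * δ) ρ r} := by
    have h2 : (J.card : ℝ≥0∞) * ENNReal.ofReal (δ ^ m) = ∑ X ∈ J, volume (Ce δ (x X)) := by
      simp_rw [Ce_vol δ hδ]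
      rw [Finset.sum_const, nsmul_eq_mul]
    rw [h2, ← measure_biUnion_finset]
    · refine measure_mono ?_
      intro y hy
      rw [mem_iUnion₂] at hy
      obtain ⟨X, hX, hy⟩ := hy
      exact hin X hX y hy
    · intro X hX Y hY hXY
      rw [Function.onFun, Set.disjoint_left]
      intro y hyX hyY
      exact hXY (hcell X hX Y hY fun i => (hyX i).symm.trans (hyY i))
    · intro X _
      exact Ce_meas δ hδ _
  have h3 : ∑ l : Fin (m + 1), ENNReal.ofReal (PWE.wgt (fun l => (k l : ℝ) * δ) l) *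
      (C0 * volume (Sl F ((k l : ℝ) * δ) (2 * (m + 2) * ρ) (2 * (m + 2) * r))) ≤
      ENNReal.ofReal ((m + 1) * ((1 / (g * δ)) ^ m * (C0 * θ))) := by
    calc _ ≤ ∑ l : Fin (m + 1), ENNReal.ofReal ((1 / (g * δ)) ^ m * (C0 * θ)) := by
          refine Finset.sum_le_sum fun l _ => ?_
          rw [ENNReal.ofReal_mul (by positivity), ENNReal.ofReal_mul (by positivity),
            ENNReal.ofReal_natCast]
          exact mul_le_mul' (ENNReal.ofReal_le_ofReal (hwgt l)) (mul_le_mul' le_rfl (hvol l))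
      _ = ENNReal.ofReal ((m + 1) * ((1 / (g * δ)) ^ m * (C0 * θ))) := by
          rw [Finset.sum_const, Finset.card_univ, Fintype.card_fin, nsmul_eq_mul,
            ← ENNReal.ofReal_natCast, ← ENNReal.ofReal_mul (Nat.cast_nonneg _)]
          congr 1
          push_cast
          rfl
  have h4 : (J.card : ℝ≥0∞) * ENNReal.ofReal (δ ^ m) = ENNReal.ofReal ((J.card : ℝ) * δ ^ m) := by
    rw [ENNReal.ofReal_mul (Nat.cast_nonneg _), ENNReal.ofReal_natCast]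
  rw [h4] at h1
  have h5 := h1.trans (hW.trans h3)
  have h6 := (ENNReal.ofReal_le_ofReal_iff (by positivity)).1 h5
  refine h6.trans ?_
  have h7 : 0 ≤ (1 / (g * δ)) ^ m * θ := by positivity
  have h8 : ((m : ℝ) + 1) * ((1 / (g * δ)) ^ m * (C0 * θ)) =
      ((m : ℝ) + 1) * C0 * ((1 / (g * δ)) ^ m * θ) := by ring
  have h9 : ((m : ℝ) + 1) * (C0 + 1) * (1 / (g * δ)) ^ m * θ =
      ((m : ℝ) + 1) * C0 * ((1 / (g * δ)) ^ m * θ) + (m + 1) * ((1 / (g * δ)) ^ m * θ) := by ring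
  rw [h8, h9]
  have h10 : 0 ≤ ((m : ℝ) + 1) * ((1 / (g * δ)) ^ m * θ) := by positivity
  linarith

/-- the bad times -/
theorem bad_times (m D : ℕ) : ∃ C : ℝ, 0 < C ∧ ∀ F : MvPolynomial (Fin (m + 1)) ℝ, F ≠ 0 →
    F.totalDegree ≤ D → ∀ (ρ r δ θ : ℝ), 0 < r → r ≤ ρ → 0 < δ → 0 < θ → ∀ Ks : Finset ℤ,
    (∀ k ∈ Ks, |(k : ℝ) * δ| ≤ ρ) →
    (∀ k ∈ Ks, ENNReal.ofReal θ < volume (Sl F ((k : ℝ) * δ) ρ r)) →
    (Ks.card : ℝ) * (δ * θ) ≤ C * ((ρ + δ) ^ m * (r + δ)) := by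
  obtain ⟨C, hC⟩ := tube m D
  refine ⟨C + 1, by positivity, ?_⟩
  intro F hF hD ρ r δ θ hr hrρ hδ hθ Ks hK1 hK2
  have h1 := sum_slices F ρ r δ hδ Ks hK1
  have h2 := hC (ρ + δ) (r + δ) (by linarith) (by linarith) F hF hD
  have h3 : ENNReal.ofReal ((Ks.card : ℝ) * (δ * θ)) ≤
      ∑ k ∈ Ks, ENNReal.ofReal δ * volume (Sl F ((k : ℝ) * δ) ρ r) := by
    calc ENNReal.ofReal ((Ks.card : ℝ) * (δ * θ)) = ∑ k ∈ Ks, ENNReal.ofReal δ * ENNReal.ofReal θ := by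
          rw [Finset.sum_const, nsmul_eq_mul, ENNReal.ofReal_mul (Nat.cast_nonneg _),
            ENNReal.ofReal_natCast, ENNReal.ofReal_mul hδ.le]
      _ ≤ _ := Finset.sum_le_sum fun k hk => mul_le_mul' le_rfl (hK2 k hk).le
  have hρ : 0 < ρ := hr.trans_le hrρ
  have h4 := (ENNReal.ofReal_le_ofReal_iff (by positivity)).1 (h3.trans (h1.trans h2))
  refine h4.trans ?_
  have h5 : 0 ≤ (ρ + δ) ^ m * (r + δ) := by positivity
  linarith

end Pool.Agent.Helper59.EN
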