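import Pool.Agent.Helper59.EN.Box

/-! Covering numbers of real hypersurfaces of bounded degree. -/

set_option autoImplicit false

namespace Pool.Agent.Helper59.EN

open Set MvPolynomial MeasureTheory

/-- substitution of polynomials of degree at most one -/
theorem tdeg_bind {σ τ : Type} (g : σ → MvPolynomial τ ℝ) (hg : ∀ i, (g i).totalDegree ≤ 1)
    (p : MvPolynomial σ ℝ) : (bind₁ g p).totalDegree ≤ p.totalDegree := by
  have h1 : bind₁ g p = ∑ s ∈ p.support, bind₁ g (monomial s (coeff s p)) := by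
    conv_lhs => rw [p.as_sum]
    rw [map_sum]
  rw [h1]
  refine totalDegree_finsetSum_le fun s hs => ?_
  refine le_trans ?_ (le_totalDegree hs)
  rw [bind₁_monomial]
  refine (totalDegree_mul _ _).trans ?_
  rw [totalDegree_C, zero_add]
  refine (totalDegree_finsetProd _ _).trans ?_
  rw [Finsupp.sum]
  refine Finset.sum_le_sum fun i _ => ?_
  refine (totalDegree_pow _ _).trans ?_
  calc s i * (g i).totalDegree ≤ s i * 1 := Nat.mul_le_mul_left _ (hg i)
    _ = s i := mul_one _

/-- restriction to a coordinate hyperplane -/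
noncomputable def rst {N : ℕ} (i : Fin (N + 1)) (b : ℝ) (p : MvPolynomial (Fin (N + 1)) ℝ) :
    MvPolynomial (Fin N) ℝ :=
  bind₁ (i.insertNth (α := fun _ => MvPolynomial (Fin N) ℝ) (C b) (fun j => X j)) p

theorem eval_rst {N : ℕ} (i : Fin (N + 1)) (b : ℝ) (p : MvPolynomial (Fin (N + 1)) ℝ)
    (y : Fin N → ℝ) :
    eval y (rst i b p) = eval (i.insertNth (α := fun _ => ℝ) b y) p := by
  unfold rst
  rw [← coe_aeval_eq_eval, RingHom.coe_coe, aeval_bind₁, ← coe_aeval_eq_eval, RingHom.coe_coe]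
  congr 2
  funext j
  refine Fin.succAboveCases i ?_ (fun j => ?_) j
  · simp
  · simp

theorem tdeg_rst {N : ℕ} (i : Fin (N + 1)) (b : ℝ) (p : MvPolynomial (Fin (N + 1)) ℝ) :
    (rst i b p).totalDegree ≤ p.totalDegree := by
  apply tdeg_bind
  intro j
  refine Fin.succAboveCases i ?_ (fun j => ?_) j
  · simp
  · simp

/-- lower and upper corners of the cubes -/
noncomputable def cl {N : ℕ} (M : ℕ) (c : Fin N → Fin M) : Fin N → ℝ := fun i => (c i : ℕ) / M
noncomputable def cu {N : ℕ} (M : ℕ) (c : Fin N → Fin M) : Fin N → ℝ := fun i => ((c i : ℕ) + 1) / M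

open Classical in
/-- the cubes that meet the zero set -/
noncomputable def cz {N : ℕ} (M : ℕ) (F : MvPolynomial (Fin N) ℝ) : Finset (Fin N → Fin M) :=
  Finset.univ.filter (fun c => ∃ x ∈ Bx (cl M c) (cu M c), eval x F = 0)

theorem cover_one (D M : ℕ) (hM : 0 < M) (F : MvPolynomial (Fin 1) ℝ) (hF : F ≠ 0)
    (hD : F.totalDegree ≤ D) : (cz M F).card ≤ 2 * D := by
  classical
  -- univariate polynomial
  let p : Polynomial ℝ := aeval (fun _ : Fin 1 => (Polynomial.X : Polynomial ℝ)) F
  have hpe : ∀ t : ℝ, p.eval t = eval (fun _ => t) F := by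
    intro t
    have h1 : p.eval t = (Polynomial.evalRingHom t) (aeval (fun _ : Fin 1 => (Polynomial.X : Polynomial ℝ)) F) := rfl
    rw [h1, aeval_def, ← coe_eval₂Hom, ← RingHom.comp_apply]
    rw [← coe_aeval_eq_eval, RingHom.coe_coe, aeval_def, ← coe_eval₂Hom]
    congr 1
    ext
    · simp
    · simp
  have hp0 : p ≠ 0 := by
    intro h
    apply hF
    apply MvPolynomial.funext
    intro x
    have hx : x = fun _ => x 0 := by
      funext i
      rw [Fin.fin_one_eq_zero i]
    rw [hx, ← hpe, h]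
    simp
  have hdeg : p.natDegree ≤ D := by
    have h1 : p = ∑ s ∈ F.support, Polynomial.C (coeff s F) * Polynomial.X ^ (s 0) := by
      show aeval (fun _ : Fin 1 => (Polynomial.X : Polynomial ℝ)) F = _
      conv_lhs => rw [F.as_sum]
      rw [map_sum]
      refine Finset.sum_congr rfl fun s _ => ?_
      rw [aeval_monomial]
      congr 1
      rw [Finsupp.prod_fintype _ _ (fun _ => pow_zero _)]
      simp
    rw [h1]
    refine Polynomial.natDegree_sum_le_of_forall_le _ _ fun s hs => ?_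
    refine (Polynomial.natDegree_C_mul_X_pow_le _ _).trans ?_
    refine le_trans ?_ ((le_totalDegree hs).trans hD)
    rw [Finsupp.sum_fintype _ _ (fun _ => rfl)]
    simp
  have hMr : (0 : ℝ) < M := by exact_mod_cast hM
  -- choose a root in every cube
  have hch : ∀ c ∈ cz M F, ∃ t : ℝ, p.IsRoot t ∧ ((c 0 : ℕ) : ℝ) ≤ t * M ∧ t * M ≤ (c 0 : ℕ) + 1 := by
    intro c hc
    unfold cz at hc
    rw [Finset.mem_filter] at hc
    obtain ⟨_, x, hx, hx0⟩ := hc
    refine ⟨x 0, ?_, ?_, ?_⟩
    · rw [Polynomial.IsRoot, hpe]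
      have h2 : (fun _ => x 0) = x := by
        funext i
        rw [Fin.fin_one_eq_zero i]
      rw [h2]
      exact hx0
    · have h3 := (hx 0).1
      unfold cl at h3
      rwa [div_le_iff₀ hMr] at h3
    · have h3 := (hx 0).2
      unfold cu at h3
      rwa [le_div_iff₀ hMr] at h3
  choose! r hr1 hr2 hr3 using hch
  have hcard : (cz M F).card ≤ (p.roots.toFinset ×ˢ (Finset.univ : Finset Bool)).card := by
    refine Finset.card_le_card_of_injOn (fun c => (r c, decide (r c * M = (c 0 : ℕ)))) ?_ ?_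
    · intro c hc
      rw [Finset.mem_coe] at hc
      rw [Finset.mem_coe, Finset.mem_product]
      refine ⟨?_, Finset.mem_univ _⟩
      rw [Multiset.mem_toFinset, Polynomial.mem_roots hp0]
      exact hr1 c hc
    · intro c hc c' hc' h
      rw [Finset.mem_coe] at hc hc'
      rw [Prod.mk.injEq] at h
      obtain ⟨h1, h2⟩ := h
      have e1 := hr2 c hc
      have e2 := hr3 c hc
      have e3 := hr2 c' hc'
      have e4 := hr3 c' hc'
      rw [← h1] at e3 e4 h2
      have h3 : (r c * M = (c 0 : ℕ)) ↔ (r c * M = (c' 0 : ℕ)) := decide_eq_decide.1 h2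
      have h4 : ((c 0 : ℕ) : ℝ) = ((c' 0 : ℕ) : ℝ) := by
        by_cases h5 : r c * M = (c 0 : ℕ)
        · rw [← h5, ← h3.1 h5]
        · have h6 : ¬ (r c * M = (c' 0 : ℕ)) := fun h => h5 (h3.2 h)
          have h7 : ((c 0 : ℕ) : ℝ) < r c * M := lt_of_le_of_ne e1 (Ne.symm h5)
          have h8 : ((c' 0 : ℕ) : ℝ) < r c * M := lt_of_le_of_ne e3 (Ne.symm h6)
          have h9 : ((c 0 : ℕ) : ℝ) < (c' 0 : ℕ) + 1 := h7.trans_le e4
          have h10 : ((c' 0 : ℕ) : ℝ) < (c 0 : ℕ) + 1 := h8.trans_le e2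
          have h11 : (c 0 : ℕ) < (c' 0 : ℕ) + 1 := by exact_mod_cast h9
          have h12 : (c' 0 : ℕ) < (c 0 : ℕ) + 1 := by exact_mod_cast h10
          have h13 : (c 0 : ℕ) = (c' 0 : ℕ) := by omega
          rw [h13]
      funext i
      rw [Fin.fin_one_eq_zero i]
      exact Fin.ext (by exact_mod_cast h4)
  refine hcard.trans ?_
  rw [Finset.card_product, Finset.card_univ, Fintype.card_bool]
  have h1 : p.roots.toFinset.card ≤ D :=
    (Multiset.toFinset_card_le _).trans ((Polynomial.card_roots' p).trans hdeg)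
  omega

open Classical in
theorem cover_step (N D C' : ℕ)
    (IH : ∀ M : ℕ, 0 < M → ∀ F : MvPolynomial (Fin (N + 1)) ℝ, F ≠ 0 → F.totalDegree ≤ 2 * D + 1 →
      (cz M F).card ≤ C' * M ^ N)
    (M : ℕ) (hM : 0 < M) (F : MvPolynomial (Fin (N + 2)) ℝ) (hF : F ≠ 0) (hD : F.totalDegree ≤ D) :
    (cz M F).card ≤ (2 * (N + 2) * C' + ((N + 3) * (2 * D + 1)) ^ (N + 2)) * M ^ (N + 1) := by
  have hMr : (0 : ℝ) < M := by exact_mod_cast hM
  have hlu : ∀ (c : Fin (N + 2) → Fin M) (i : Fin (N + 2)), cl M c i < cu M c i := by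
    intro c i
    unfold cl cu
    rw [div_lt_div_iff_of_pos_right hMr]
    linarith
  -- points with F nonzero
  have hpt : ∀ c : Fin (N + 2) → Fin M, ∃ y ∈ Bx (cl M c) (cu M c), eval y F ≠ 0 := by
    intro c
    by_contra hcon
    push Not at hcon
    have h1 : Set.pi Set.univ (fun i => Set.Ioo (cl M c i) (cu M c i)) ⊆ {x | eval x F = 0} := by
      intro x hx
      exact hcon x fun i => ⟨(hx i (Set.mem_univ i)).1.le, (hx i (Set.mem_univ i)).2.le⟩
    have h2 := measure_mono_null h1 (PWE.null_zero F hF)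
    rw [Real.volume_pi_Ioo] at h2
    exact absurd h2 (Finset.prod_ne_zero_iff.2 fun i _ => by
      rw [Ne, ENNReal.ofReal_eq_zero, not_le]
      exact sub_pos.2 (hlu c i))
  choose y hy hy0 using hpt
  have : Nonempty (Fin M) := ⟨⟨0, hM⟩⟩
  obtain ⟨c0, _, hc0⟩ := Finset.exists_min_image (Finset.univ : Finset (Fin (N + 2) → Fin M))
    (fun c => (eval (y c) F) ^ 2) Finset.univ_nonempty
  set ε₀ : ℝ := (eval (y c0) F) ^ 2 / 4 with hε₀
  have hε₀pos : 0 < ε₀ := by
    have := sq_pos_of_ne_zero (hy0 c0)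
    positivity
  have hyε : ∀ c, 4 * ε₀ ≤ (eval (y c) F) ^ 2 := fun c => by
    have := hc0 c (Finset.mem_univ c)
    rw [hε₀]
    linarith
  -- the linear perturbation
  have hN2 : (0 : ℝ) < (N : ℝ) + 2 := by positivity
  set ρ : ℝ := ε₀ / (4 * (N + 2)) with hρ
  have hρ0 : 0 < ρ := by positivity
  have hmult := PWE.multiplicity (σ := Fin (N + 2)) (d := 2 * D + 1) (by omega)
    (fun i => pderiv i (F * F)) (fun i => by
      refine (PWE.tdeg_pd i (F * F) (2 * D + 1) ?_)
      refine (totalDegree_mul _ _).trans ?_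
      omega)
  obtain ⟨v, hvρ, hv⟩ : ∃ v : Fin (N + 2) → ℝ, (∀ i, |v i| ≤ ρ) ∧
      ∀ S : Finset (Fin (N + 2) → ℝ), (∀ x ∈ S, ∀ i, eval x (pderiv i (F * F)) = v i) →
      S.card ≤ ((Fintype.card (Fin (N + 2)) + 1) * (2 * D + 1)) ^ Fintype.card (Fin (N + 2)) := by
    by_contra hcon
    push Not at hcon
    have h1 : Set.pi Set.univ (fun _ : Fin (N + 2) => Set.Ioo (-ρ) ρ) ⊆
        {α | ¬ ∀ S : Finset (Fin (N + 2) → ℝ), (∀ x ∈ S, ∀ i, eval x (pderiv i (F * F)) = α i) →
      S.card ≤ ((Fintype.card (Fin (N + 2)) + 1) * (2 * D + 1)) ^ Fintype.card (Fin (N + 2))} := by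
      intro α hα
      obtain ⟨S, hS1, hS2⟩ := hcon α (fun i => abs_le.2 ⟨(hα i (Set.mem_univ i)).1.le,
        (hα i (Set.mem_univ i)).2.le⟩)
      exact fun h => absurd (h S hS1) (not_le.2 hS2)
    have h2 := measure_mono_null h1 (ae_iff.1 hmult)
    rw [Real.volume_pi_Ioo] at h2
    exact absurd h2 (Finset.prod_ne_zero_iff.2 fun i _ => by
      rw [Ne, ENNReal.ofReal_eq_zero, not_le]
      linarith)
  -- the constant
  set H : MvPolynomial (Fin (N + 2)) ℝ := F * F - ∑ i, C (v i) * X i with hH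
  obtain ⟨ε, ⟨hε1, hε2⟩, hε3⟩ : ∃ ε ∈ Set.Ioo (ε₀ / 2) ε₀, ∀ (i : Fin (N + 2)) (s : Fin M)
      (b : Bool), rst i (((s : ℕ) + (if b then 1 else 0 : ℝ)) / M) H ≠ C ε := by
    have hinf : (Set.Ioo (ε₀ / 2) ε₀).Infinite := Set.Ioo_infinite (by linarith)
    have hfin : ((Finset.univ : Finset (Fin (N + 2) × Fin M × Bool)).image (fun z =>
      constantCoeff (rst z.1 (((z.2.1 : ℕ) + (if z.2.2 then 1 else 0 : ℝ)) / M) H)) : Set ℝ).Finite :=
      Finset.finite_toSet _
    obtain ⟨ε, hε, hε'⟩ := (hinf.sdiff hfin).nonempty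
    refine ⟨ε, hε, fun i s b h => hε' ?_⟩
    rw [Finset.mem_coe, Finset.mem_image]
    refine ⟨(i, s, b), Finset.mem_univ _, ?_⟩
    show constantCoeff (rst i (((s : ℕ) + (if b then 1 else 0 : ℝ)) / M) H) = ε
    rw [h, constantCoeff_C]
  set G : MvPolynomial (Fin (N + 2)) ℝ := H - C ε with hG
  have hGe : ∀ x, eval x G = (eval x F) ^ 2 - ∑ i, v i * x i - ε := by
    intro x
    rw [hG, hH, map_sub, map_sub, map_mul, map_sum, eval_C]
    simp only [map_mul, eval_C, eval_X]
    ring
  have hGdeg : G.totalDegree ≤ 2 * D + 1 := by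
    rw [hG, hH]
    refine (totalDegree_sub _ _).trans (max_le ((totalDegree_sub _ _).trans (max_le ?_ ?_)) ?_)
    · refine (totalDegree_mul _ _).trans ?_
      omega
    · refine totalDegree_finsetSum_le fun i _ => ?_
      refine (totalDegree_mul _ _).trans ?_
      rw [totalDegree_C, zero_add, totalDegree_X]
      omega
    · rw [totalDegree_C]
      omega
  have hrG : ∀ (i : Fin (N + 2)) (s : Fin M) (b : Bool),
      rst i (((s : ℕ) + (if b then 1 else 0 : ℝ)) / M) G ≠ 0 := by
    intro i s b h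
    apply hε3 i s b
    have h1 : rst i (((s : ℕ) + (if b then 1 else 0 : ℝ)) / M) G =
        rst i (((s : ℕ) + (if b then 1 else 0 : ℝ)) / M) H - C ε := by
      unfold rst
      rw [hG, map_sub, bind₁_C_right]
    rw [h1, sub_eq_zero] at h
    exact h
  -- the linear form is small on the unit box
  have hlin : ∀ (c : Fin (N + 2) → Fin M), ∀ x ∈ Bx (cl M c) (cu M c), |∑ i, v i * x i| ≤ ε₀ / 4 := by
    intro c x hx
    have h1 : ∀ i, |x i| ≤ 1 := by
      intro i
      have h2 := (hx i).1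
      have h3 := (hx i).2
      unfold cl at h2
      unfold cu at h3
      have h4 : (((c i : ℕ) : ℝ) + 1) / M ≤ 1 := by
        rw [div_le_one hMr]
        exact_mod_cast (c i).2
      have h5 : (0 : ℝ) ≤ ((c i : ℕ) : ℝ) / M := by positivity
      rw [abs_le]
      constructor <;> linarith
    calc |∑ i, v i * x i| ≤ ∑ i, |v i * x i| := Finset.abs_sum_le_sum_abs _ _
      _ ≤ ∑ _i : Fin (N + 2), ρ := by
          refine Finset.sum_le_sum fun i _ => ?_
          rw [abs_mul]
          calc |v i| * |x i| ≤ ρ * 1 := mul_le_mul (hvρ i) (h1 i) (abs_nonneg _) hρ0.le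
            _ = ρ := mul_one _
      _ = ε₀ / 4 := by
          rw [Finset.sum_const, Finset.card_univ, Fintype.card_fin, nsmul_eq_mul, hρ]
          push_cast
          field_simp
  -- the two kinds of cubes
  have hsub : cz M F ⊆
      ((Finset.univ : Finset (Fin (N + 2) × Fin M × Bool)).biUnion (fun z =>
        (cz M (rst z.1 (((z.2.1 : ℕ) + (if z.2.2 then 1 else 0 : ℝ)) / M) G)).image
          (fun c' => z.1.insertNth (α := fun _ => Fin M) z.2.1 c'))) ∪
      (Finset.univ.filter (fun c : Fin (N + 2) → Fin M => ∃ x : Fin (N + 2) → ℝ,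
        (∀ i, cl M c i < x i ∧ x i < cu M c i) ∧ ∀ i, eval x (pderiv i (F * F)) = v i)) := by
    intro c hc
    unfold cz at hc
    rw [Finset.mem_filter] at hc
    obtain ⟨_, x, hx, hx0⟩ := hc
    rw [Finset.mem_union]
    by_cases hfac : ∃ w ∈ Bx (cl M c) (cu M c), (∃ i, w i = cl M c i ∨ w i = cu M c i) ∧ eval w G = 0
    · left
      obtain ⟨w, hw, ⟨i, hi⟩, hw0⟩ := hfac
      obtain ⟨b, hb⟩ : ∃ b : Bool, w i = ((c i : ℕ) + (if b then 1 else 0 : ℝ)) / M := by
        rcases hi with hi | hi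
        · exact ⟨false, by rw [hi]; simp [cl]⟩
        · exact ⟨true, by rw [hi]; simp [cu]⟩
      rw [Finset.mem_biUnion]
      refine ⟨(i, c i, b), Finset.mem_univ _, ?_⟩
      rw [Finset.mem_image]
      refine ⟨fun j => c (i.succAbove j), ?_, ?_⟩
      · unfold cz
        rw [Finset.mem_filter]
        refine ⟨Finset.mem_univ _, fun j => w (i.succAbove j), fun j => hw (i.succAbove j), ?_⟩
        rw [eval_rst]
        have h1 : i.insertNth (α := fun _ => ℝ) (((c i : ℕ) + (if b then 1 else 0 : ℝ)) / M)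
            (fun j => w (i.succAbove j)) = w := by
          rw [← hb]
          exact Fin.insertNth_self_removeNth i w
        show eval (i.insertNth (α := fun _ => ℝ) (((c i : ℕ) + (if b then 1 else 0 : ℝ)) / M)
            (fun j => w (i.succAbove j))) G = 0
        rw [h1]
        exact hw0
      · exact Fin.insertNth_self_removeNth i c
    · right
      push Not at hfac
      rw [Finset.mem_filter]
      refine ⟨Finset.mem_univ _, ?_⟩
      have h1 := abs_le.1 (hlin c x hx)
      have h2 := abs_le.1 (hlin c (y c) (hy c))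
      obtain ⟨w, hw, hext⟩ := sgn (by omega) (cl M c) (cu M c) (hlu c) (fun x => eval x G)
        (MvPolynomial.continuous_eval G) (fun z hz hz' => hfac z hz hz') x (y c) hx (hy c)
        (by
          show eval x G < 0
          rw [hGe, hx0]
          linarith)
        (by
          show 0 < eval (y c) G
          rw [hGe]
          have := hyε c
          linarith)
      refine ⟨w, hw, fun i => ?_⟩
      have h3 := hext.hasFDerivAt_eq_zero (PWE.poly_hasFDerivAt G w)
      have h4 : PWE.polyD G w (Pi.single i 1) = 0 := by rw [h3]; rfl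
      rw [PWE.polyD_apply, Finset.sum_eq_single i (fun j _ hj => by
        rw [Pi.single_eq_of_ne hj, mul_zero]) (fun h => absurd (Finset.mem_univ i) h),
        Pi.single_eq_same, mul_one] at h4
      have h5 : pderiv i G = pderiv i (F * F) - C (v i) := by
        rw [hG, hH, map_sub, map_sub, map_sum, pderiv_C, sub_zero]
        congr 1
        rw [Finset.sum_eq_single i]
        · rw [pderiv_C_mul, pderiv_X_self, mul_one]
        · intro j _ hj
          rw [pderiv_C_mul, pderiv_X_of_ne hj, mul_zero]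
        · intro h
          exact absurd (Finset.mem_univ i) h
      rw [h5, map_sub, eval_C, sub_eq_zero] at h4
      exact h4
  refine (Finset.card_le_card hsub).trans ((Finset.card_union_le _ _).trans ?_)
  have hA : ((Finset.univ : Finset (Fin (N + 2) × Fin M × Bool)).biUnion (fun z =>
        (cz M (rst z.1 (((z.2.1 : ℕ) + (if z.2.2 then 1 else 0 : ℝ)) / M) G)).image
          (fun c' => z.1.insertNth (α := fun _ => Fin M) z.2.1 c'))).card ≤
      2 * (N + 2) * C' * M ^ (N + 1) := by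
    refine Finset.card_biUnion_le.trans ?_
    calc _ ≤ ∑ z : Fin (N + 2) × Fin M × Bool, C' * M ^ N := by
          refine Finset.sum_le_sum fun z _ => Finset.card_image_le.trans ?_
          exact IH M hM _ (hrG z.1 z.2.1 z.2.2) ((tdeg_rst _ _ _).trans hGdeg)
      _ = 2 * (N + 2) * C' * M ^ (N + 1) := by
          rw [Finset.sum_const, Finset.card_univ, Fintype.card_prod, Fintype.card_prod,
            Fintype.card_fin, Fintype.card_fin, Fintype.card_bool, smul_eq_mul]
          ring
  have hB : (Finset.univ.filter (fun c : Fin (N + 2) → Fin M => ∃ x : Fin (N + 2) → ℝ,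
        (∀ i, cl M c i < x i ∧ x i < cu M c i) ∧ ∀ i, eval x (pderiv i (F * F)) = v i)).card ≤
      ((N + 3) * (2 * D + 1)) ^ (N + 2) := by
    set B := Finset.univ.filter (fun c : Fin (N + 2) → Fin M => ∃ x : Fin (N + 2) → ℝ,
        (∀ i, cl M c i < x i ∧ x i < cu M c i) ∧ ∀ i, eval x (pderiv i (F * F)) = v i) with hBd
    have hex : ∀ c ∈ B, ∃ x : Fin (N + 2) → ℝ,
        (∀ i, cl M c i < x i ∧ x i < cu M c i) ∧ ∀ i, eval x (pderiv i (F * F)) = v i := by
      intro c hc
      rw [hBd, Finset.mem_filter] at hc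
      exact hc.2
    choose! r hr1 hr2 using hex
    have hinj : Set.InjOn r B := by
      intro c hc c' hc' h
      rw [Finset.mem_coe] at hc hc'
      funext i
      apply Fin.ext
      have e1 := hr1 c hc i
      have e2 := hr1 c' hc' i
      rw [← h] at e2
      unfold cl cu at e1 e2
      have h1 : ((c i : ℕ) : ℝ) / M < ((c' i : ℕ) + 1) / M := e1.1.trans e2.2
      have h2 : ((c' i : ℕ) : ℝ) / M < ((c i : ℕ) + 1) / M := e2.1.trans e1.2
      rw [div_lt_div_iff_of_pos_right hMr] at h1 h2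
      have h3 : (c i : ℕ) < (c' i : ℕ) + 1 := by exact_mod_cast h1
      have h4 : (c' i : ℕ) < (c i : ℕ) + 1 := by exact_mod_cast h2
      omega
    have h1 := hv (B.image r) (by
      intro x hx
      rw [Finset.mem_image] at hx
      obtain ⟨c, hc, rfl⟩ := hx
      exact hr2 c hc)
    rw [Finset.card_image_of_injOn hinj, Fintype.card_fin] at h1
    exact h1
  calc _ ≤ 2 * (N + 2) * C' * M ^ (N + 1) + ((N + 3) * (2 * D + 1)) ^ (N + 2) * 1 :=
        add_le_add hA (by rw [mul_one]; exact hB)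
    _ ≤ 2 * (N + 2) * C' * M ^ (N + 1) + ((N + 3) * (2 * D + 1)) ^ (N + 2) * M ^ (N + 1) := by
        refine Nat.add_le_add_left (Nat.mul_le_mul_left _ ?_) _
        exact Nat.one_le_pow _ _ hM
    _ = _ := by ring

/-- COVER: the zero set of a polynomial of degree `≤ D` meets at most `C M ^ N` of the `M ^ (N+1)`
cubes of the unit box -/
theorem cover (N : ℕ) : ∀ D : ℕ, ∃ C : ℕ, ∀ M : ℕ, 0 < M → ∀ F : MvPolynomial (Fin (N + 1)) ℝ,
    F ≠ 0 → F.totalDegree ≤ D → (cz M F).card ≤ C * M ^ N := by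
  induction N with
  | zero =>
    intro D
    refine ⟨2 * D, fun M hM F hF hD => ?_⟩
    rw [pow_zero, mul_one]
    exact cover_one D M hM F hF hD
  | succ N ih =>
    intro D
    obtain ⟨C', hC'⟩ := ih (2 * D + 1)
    exact ⟨_, fun M hM F hF hD => cover_step N D C' hC' M hM F hF hD⟩

end Pool.Agent.Helper59.EN
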