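import Pool.Agent.Helper59.EN.Ent
import Pool.Agent.Helper31.EC.Dig

/-! THE LAST STEP in the exact calculus: systems that stay near a hypersurface of bounded degree. -/

set_option autoImplicit false

namespace Pool.Agent.Helper59.EN

open Filter Topology MvPolynomial Pool.Agent.Helper69.RK
open Pool.Agent.Helper31.EC
open Pool.Agent.Helper31.EC.Sp (VV io Bdd dl rt tr Typ Sub)

noncomputable section

/-- subexponential constants times exponentially small lengths -/
theorem sub_mul_dl {S : Sp} {K : ℕ → ℝ} (hK : S.Sub K) (A s : ℝ) (hA : 0 ≤ A) (hs : 0 < s) :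
    ∀ᶠ k in UF, (K k + A) * S.dl s k ≤ 1 := by
  obtain ⟨h0, h1⟩ := hK
  have h2 : ∀ᶠ k in UF, Real.logb 2 (K k + 2) / (S.F k).n < s / 2 :=
    h1.eventually (gt_mem_nhds (by linarith))
  have h3 : ∀ᶠ k in UF, A + 1 ≤ 2 ^ ((s / 2) * (S.F k).n) := by
    have h4 : Tendsto (fun y : ℝ => (2 : ℝ) ^ y) atTop atTop := tendsto_rpow_atTop_of_base_gt_one 2 (by norm_num)
    exact (h4.comp (S.lim.const_mul_atTop (show 0 < s / 2 by linarith))).eventually (eventually_ge_atTop _)
  filter_upwards [h0, h2, h3] with k a b c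
  have hn := (S.F k).pos
  have e1 : K k + 2 ≤ 2 ^ ((s / 2) * (S.F k).n) := by
    rw [div_lt_iff₀ hn] at b
    have e2 : (2 : ℝ) ^ (Real.logb 2 (K k + 2)) = K k + 2 :=
      Real.rpow_logb (by norm_num) (by norm_num) (by linarith)
    rw [← e2]
    exact Real.rpow_le_rpow_of_exponent_le (by norm_num) b.le
  have e3 : K k + A ≤ (K k + 2) * (A + 1) := by nlinarith
  have e4 : S.dl s k = (2 ^ ((s / 2) * (S.F k).n))⁻¹ * (2 ^ ((s / 2) * (S.F k).n))⁻¹ := by
    unfold dl
    rw [← mul_inv, ← Real.rpow_add (by norm_num), ← Real.rpow_neg (by norm_num)]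
    congr 1
    ring
  have hp : (0 : ℝ) < 2 ^ ((s / 2) * (S.F k).n) := by positivity
  calc (K k + A) * S.dl s k ≤ (K k + 2) * (A + 1) * S.dl s k :=
        mul_le_mul_of_nonneg_right e3 (S.dl_pos s k).le
    _ ≤ 2 ^ ((s / 2) * (S.F k).n) * 2 ^ ((s / 2) * (S.F k).n) * S.dl s k := by
        apply mul_le_mul_of_nonneg_right _ (S.dl_pos s k).le
        exact mul_le_mul e1 c (by linarith) hp.le
    _ = 1 := by
        rw [e4]
        field_simp

theorem END {S : Sp} {m : ℕ} (hm : 1 ≤ m) (a x : S.VV m) (t : S.VV 1) (s c : ℝ) (hc : 0 ≤ c)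
    (hcs : c < s) (D : ℕ) (F : ∀ k, (S.F k).Ω → MvPolynomial (Fin (m + 1)) ℝ)
    (E : ∀ k, (S.F k).Ω → Prop) (hE : Typ E) (K : ℕ → ℝ) (hK : S.Sub K)
    (hF0 : ∀ᶠ k in UF, ∀ ω, (S.F k).μ ω ≠ 0 → E k ω → F k ω ≠ 0 ∧ (F k ω).totalDegree ≤ D)
    (hFZ : ∀ᶠ k in UF, ∀ ω ω', (S.F k).μ ω ≠ 0 → (S.F k).μ ω' ≠ 0 → E k ω → E k ω' →
      (S.F k).Z ω ω' → F k ω = F k ω')
    (hq : ∀ᶠ k in UF, ∀ ω, (S.F k).μ ω ≠ 0 → E k ω → ∃ q : Fin (m + 1) → ℝ, eval q (F k ω) = 0 ∧
      |t.v k ω 0 - q 0| ≤ K k * S.dl s k ∧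
      ∀ i : Fin m, |a.v k ω i + t.v k ω 0 * x.v k ω i - q i.succ| ≤ K k * S.dl s k)
    (hw : ∀ᶠ k in UF, ∀ ω ω', (S.F k).μ ω ≠ 0 → (S.F k).μ ω' ≠ 0 → E k ω → E k ω' →
      (S.F k).Z ω ω' → |t.v k ω 0 - t.v k ω' 0| ≤ K k * S.dl c k)
    (ht : s - c ≤ h (t.dg s) (a.dg s ⊔ x.dg s)) :
    H (x.dg s) ≤ ((m : ℝ) - 1) * s + (2 * m + 2) * c := by
  classical
  obtain ⟨Ca, hCaS, hCa⟩ := a.bd
  obtain ⟨Cx, hCxS, hCx⟩ := x.bd
  obtain ⟨Ct, hCtS, hCt⟩ := t.bd
  set R : ℕ → ℝ := fun k => Ca k + Cx k + Ct k + 1 with hR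
  have hRS : S.Sub R := ((hCaS.add hCxS).add hCtS).add (S.Sub_const zero_le_one)
  obtain ⟨C, hC, hfin⟩ := fin_end m D
  -- subexponential constants
  have hpow : ∀ n : ℕ, S.Sub (fun k => R k ^ n) := by
    intro n
    induction n with
    | zero =>
      simp only [pow_zero]
      exact S.Sub_const zero_le_one
    | succ n ih =>
      simp only [pow_succ]
      exact ih.mul hRS
  set V : ℕ → ℝ := fun k => 4 * R k with hV
  have hVS : S.Sub V := (S.Sub_const (by norm_num : (0 : ℝ) ≤ 4)).mul hRS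
  set U : ℕ → ℝ := fun k => 2 * K k + 3 with hU
  have hUS : S.Sub U := ((S.Sub_const (by norm_num : (0 : ℝ) ≤ 2)).mul hK).add
    (S.Sub_const (by norm_num : (0 : ℝ) ≤ 3))
  set KR : ℕ → ℝ := fun k => K k + (2 * R k + 3) with hKR
  have hKRS : S.Sub KR := hK.add (((S.Sub_const (by norm_num : (0 : ℝ) ≤ 2)).mul hRS).add
    (S.Sub_const (by norm_num : (0 : ℝ) ≤ 3)))
  set W : ℕ → ℝ := fun k => C * R k ^ (3 * m + 2) * KR k with hW
  have hWS : S.Sub W := ((S.Sub_const hC.le).mul (hpow _)).mul hKRS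
  have hs : 0 < s := by linarith
  apply le_of_forall_pos_le_add
  intro ε hε
  -- the parameter
  have hm2 : (0 : ℝ) < 2 * m + 2 := by positivity
  set η : ℝ := ε / (2 * m + 2) with hη
  have hη0 : 0 < η := div_pos hε hm2
  have hηε : (2 * (m : ℝ) + 2) * η = ε := by
    rw [hη]
    field_simp
  -- entropies as ultralimits
  set ft : ℕ → ℝ := S.rt (fun k => Setoid.ker (t.cellv s k))
    (fun k => Setoid.ker (fun ω => (a.cellv s k ω, x.cellv s k ω))) with hft
  set fx : ℕ → ℝ := S.rt (fun k => Setoid.ker (x.cellv s k)) S.tr with hfx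
  have hHx : H (x.dg s) = ul fx := Sp.H_io (x.bdd s)
  have hht : h (t.dg s) (a.dg s ⊔ x.dg s) = ul ft := by
    have h1 : a.dg s ⊔ x.dg s = io (fun k ω => (a.cellv s k ω, x.cellv s k ω)) :=
      (Sp.io_pair (a.bdd s) (x.bdd s)).symm
    rw [h1]
    exact Sp.h_io (t.bdd s) ((a.bdd s).pair (x.bdd s))
  have hUBt : UB ft := Sp.UB_rt (t.bdd s).toInf _
  have hUBx : UB fx := Sp.UB_rt (x.bdd s).toInf _
  have hlt := ul_tendsto hUBt
  rw [hht] at ht
  -- the error of the exceptional event
  set p0 : ℕ → ℝ := fun k => mass (res (S.F k).μ (fun ω => ¬ E k ω)) with hp0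
  have hp0t : Tendsto p0 UF (𝓝 0) := hE
  set u : ℕ → ℝ := fun k => p0 k * (Real.logb 2 (V k + 2) / (S.F k).n + s) +
    (Real.logb 2 (U k + 2) / (S.F k).n + (s - c)) + 2 / (S.F k).n - ft k with hu
  have hut : Tendsto u UF (𝓝 ((s - c) - ul ft)) := by
    have t1 := hp0t.mul (hVS.2.add_const s)
    have t2 := hUS.2.add_const (s - c)
    have t3 := S.div_n_tendsto 2
    have t4 := ((t1.add t2).add t3).sub hlt
    simpa using t4
  set f : ℕ → ℝ := fun k => (Real.logb 2 (W k + 2) / (S.F k).n +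
    (((m : ℝ) - 1) * s + (2 * m + 2) * (c + η))) +
    m * (Real.logb 2 (V k + 2) / (S.F k).n + s) * (p0 k + u k / η) + 1 / (S.F k).n with hf
  have hft' : Tendsto f UF (𝓝 ((((m : ℝ) - 1) * s + (2 * m + 2) * (c + η)) +
      m * s * (((s - c) - ul ft) / η))) := by
    have t1 := hWS.2.add_const (((m : ℝ) - 1) * s + (2 * m + 2) * (c + η))
    have t2 := ((hVS.2.add_const s).const_mul (m : ℝ)).mul (hp0t.add (hut.div_const η))
    have t3 := (t1.add t2).add (S.div_n_tendsto 1)
    rw [zero_add, zero_add, zero_add, add_zero] at t3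
    exact t3
  have hfx : ∀ᶠ k in UF, fx k ≤ f k := by
    filter_upwards [hCa, hCx, hCt, hK.1, hF0, hFZ, hq, hw, sub_mul_dl hKRS 0 s le_rfl hs,
      hCaS.1, hCxS.1, hCtS.1] with k hak hxk htk hKk hF0k hFZk hqk hwk hsub hCa0 hCx0 hCt0
    have hR1 : 1 ≤ R k := by
      show 1 ≤ Ca k + Cx k + Ct k + 1
      linarith
    have hRk : R k = Ca k + Cx k + Ct k + 1 := rfl
    have hVk : V k = 4 * R k := rfl
    have hUk : U k = 2 * K k + 3 := rfl
    have hKRk : KR k = K k + (2 * R k + 3) := rfl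
    have hWk : W k = C * R k ^ (3 * m + 2) * KR k := rfl
    rw [add_zero, hKRk] at hsub
    have hn := (S.F k).pos
    have hδ := S.dl_pos s k
    have hδ1 : S.dl s k ≤ 1 := by
      have := S.dl_anti hs.le k
      rwa [S.dl_zero] at this
    set qq : ℝ := 2 ^ (-(η * (S.F k).n)) with hqq
    have hqq0 : 0 < qq := by positivity
    have hqq1 : qq ≤ 1 := by
      rw [hqq]
      apply Real.rpow_le_one_of_one_le_of_nonpos (by norm_num)
      have : 0 ≤ η * (S.F k).n := by positivity
      linarith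
    set ww : ℝ := 2 ^ ((s - c) * (S.F k).n) with hww
    have hww1 : 1 ≤ ww := by
      apply Real.one_le_rpow (by norm_num)
      have : 0 < s - c := by linarith
      positivity
    set hh : ℝ := (2 * K k + 3) * ww with hhh
    have hh1 : 1 ≤ hh := by
      calc (1 : ℝ) = 1 * 1 := (one_mul 1).symm
        _ ≤ (2 * K k + 3) * ww := mul_le_mul (by linarith) hww1 zero_le_one (by linarith)
    have hcw : S.dl c k = ww * S.dl s k := by
      unfold dl
      rw [hww, ← Real.rpow_add (by norm_num)]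
      congr 1
      ring
    obtain ⟨p, hp, hp1, hp2⟩ := hfin (R k) hR1 (S.F k).μ (Quotient.mk (S.F k).Z) (a.v k) (x.v k)
      (fun ω => t.v k ω 0) (F k) (E k) (S.dl s k) (K k + 1) qq hh (S.F k).nn (S.F k).ms hδ hδ1
      (by linarith) (by
        have e1 : K k + 1 + 2 * R k + 2 = K k + (2 * R k + 3) := by ring
        rw [e1]
        exact hsub) hqq0 hqq1 hh1 (by
        intro ω hω
        rw [hRk]
        refine ⟨fun i => ⟨?_, ?_⟩, ?_⟩
        · have := hak ω hω i
          linarith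
        · have := hxk ω hω i
          linarith
        · have := htk ω hω 0
          linarith) hF0k (fun ω ω' h1 h2 h3 h4 h5 => hFZk ω ω' h1 h2 h3 h4 (Quotient.exact h5))
      (by
        intro ω h1 h2
        obtain ⟨q, hq0, hqt, hqs⟩ := hqk ω h1 h2
        have e1 : K k * S.dl s k ≤ (K k + 1) * S.dl s k :=
          mul_le_mul_of_nonneg_right (by linarith) hδ.le
        exact ⟨q, hq0, hqt.trans e1, fun i => (hqs i).trans e1⟩)
      (by
        intro ω h1 h2 T hT
        -- integers near one integer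
        have e1 : T ⊆ Finset.Icc (⌊t.v k ω 0 / S.dl s k⌋ - ⌊K k * ww + 1⌋)
            (⌊t.v k ω 0 / S.dl s k⌋ + ⌊K k * ww + 1⌋) := by
          intro j hj
          obtain ⟨ω', h3, h4, h5, rfl⟩ := hT j hj
          have h6 := hwk ω ω' h1 h3 h2 h4 ((S.F k).Z.symm (Quotient.exact h5))
          rw [hcw, ← mul_assoc] at h6
          have h7 : |(t.v k ω 0 / S.dl s k) - (t.v k ω' 0 / S.dl s k)| ≤ K k * ww := by
            rw [← sub_div, abs_div, abs_of_pos hδ, div_le_iff₀ hδ]
            exact h6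
          have g1 := Int.floor_le (t.v k ω 0 / S.dl s k)
          have g2 := Int.lt_floor_add_one (t.v k ω 0 / S.dl s k)
          have g3 := Int.floor_le (t.v k ω' 0 / S.dl s k)
          have g4 := Int.lt_floor_add_one (t.v k ω' 0 / S.dl s k)
          have g5 := abs_le.1 h7
          rw [Finset.mem_Icc]
          constructor
          · have g6 : ((⌊t.v k ω 0 / S.dl s k⌋ - ⌊t.v k ω' 0 / S.dl s k⌋ : ℤ) : ℝ) ≤ K k * ww + 1 := by
              push_cast
              linarith
            have g7 := Int.le_floor.2 g6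
            omega
          · have g6 : ((⌊t.v k ω' 0 / S.dl s k⌋ - ⌊t.v k ω 0 / S.dl s k⌋ : ℤ) : ℝ) ≤ K k * ww + 1 := by
              push_cast
              linarith
            have g7 := Int.le_floor.2 g6
            omega
        have e2 := Finset.card_le_card e1
        rw [Int.card_Icc] at e2
        have e3 : 0 ≤ ⌊K k * ww + 1⌋ := Int.floor_nonneg.2 (by positivity)
        have e4 : (T.card : ℝ) ≤ 2 * (⌊K k * ww + 1⌋ : ℝ) + 1 := by
          calc (T.card : ℝ) ≤ (((⌊t.v k ω 0 / S.dl s k⌋ + ⌊K k * ww + 1⌋ + 1 -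
                (⌊t.v k ω 0 / S.dl s k⌋ - ⌊K k * ww + 1⌋)).toNat : ℕ) : ℝ) := by exact_mod_cast e2
            _ = 2 * (⌊K k * ww + 1⌋ : ℝ) + 1 := by
                rw [← Int.cast_natCast, Int.toNat_of_nonneg (by omega)]
                push_cast
                ring
        have e5 : (⌊K k * ww + 1⌋ : ℝ) ≤ K k * ww + 1 := Int.floor_le _
        rw [hhh]
        nlinarith)
    -- translate
    have hct : CH (S.F k).μ (fun ω => ⌊t.v k ω 0 / S.dl s k⌋) (fun ω => ((fun i => ⌊a.v k ω i / S.dl s k⌋,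
        fun i => ⌊x.v k ω i / S.dl s k⌋), Quotient.mk (S.F k).Z ω)) = ft k * (S.F k).n := by
      rw [hft]
      unfold rt
      rw [div_mul_cancel₀ _ hn.ne']
      symm
      apply FSp.e_congr
      · intro ω ω' _ _
        show t.cellv s k ω' = t.cellv s k ω ↔ _
        constructor
        · intro h'
          exact congrFun h' 0
        · intro h'
          funext i
          have hi : i = 0 := Subsingleton.elim _ _
          rw [hi]
          exact h'
      · intro ω ω' _ _
        constructor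
        · rintro ⟨h1, h2⟩
          exact Prod.ext h1 (Quotient.sound h2)
        · intro h1
          have h2 := Prod.mk.inj h1
          exact ⟨h2.1, Quotient.exact h2.2⟩
    have hcx : CH (S.F k).μ (fun ω i => ⌊x.v k ω i / S.dl s k⌋) (Quotient.mk (S.F k).Z) = fx k * (S.F k).n := by
      show _ = S.rt (fun k => Setoid.ker (x.cellv s k)) S.tr k * (S.F k).n
      unfold rt
      rw [div_mul_cancel₀ _ hn.ne']
      symm
      apply FSp.e_congr
      · intro ω ω' _ _
        exact Iff.rfl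
      · intro ω ω' _ _
        constructor
        · rintro ⟨_, h2⟩
          exact Quotient.sound h2
        · intro h1
          exact ⟨trivial, Quotient.exact h1⟩
    rw [hct] at hp1
    rw [hcx] at hp2
    -- logarithms
    have l1 : Real.logb 2 (4 * R k / S.dl s k) ≤ Real.logb 2 (V k + 2) + s * (S.F k).n := by
      rw [Real.logb_div (by positivity) hδ.ne']
      unfold dl
      rw [Real.logb_rpow (by norm_num) (by norm_num)]
      have e1 : Real.logb 2 (4 * R k) ≤ Real.logb 2 (V k + 2) :=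
        Real.logb_le_logb_of_le (by norm_num) (by linarith) (by rw [hVk]; linarith)
      linarith
    have l2 : Real.logb 2 hh ≤ Real.logb 2 (U k + 2) + (s - c) * (S.F k).n := by
      rw [hhh, Real.logb_mul (by positivity) (by positivity), hww,
        Real.logb_rpow (by norm_num) (by norm_num)]
      have e1 : Real.logb 2 (2 * K k + 3) ≤ Real.logb 2 (U k + 2) :=
        Real.logb_le_logb_of_le (by norm_num) (by linarith) (by rw [hUk]; linarith)
      linarith
    have l3 : Real.logb 2 (1 / qq) = η * (S.F k).n := by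
      rw [one_div, Real.logb_inv, hqq, Real.logb_rpow (by norm_num) (by norm_num)]
      ring
    rw [l3] at hp1
    have hp0k : 0 ≤ p0 k := mass_nn _ (res_nn _ _ (S.F k).nn)
    have hp1' : p0 k * Real.logb 2 (4 * R k / S.dl s k) ≤
        p0 k * (Real.logb 2 (V k + 2) + s * (S.F k).n) := mul_le_mul_of_nonneg_left l1 hp0k
    have hp1'' : ft k * (S.F k).n + p * (η * (S.F k).n) ≤
        p0 k * (Real.logb 2 (V k + 2) + s * (S.F k).n) +
        (Real.logb 2 (U k + 2) + (s - c) * (S.F k).n) + 2 := by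
      have e0 : ft k * (S.F k).n + p * (η * (S.F k).n) ≤
        p0 k * Real.logb 2 (4 * R k / S.dl s k) + Real.logb 2 hh + 2 := hp1
      linarith
    have hpu : p ≤ u k / η := by
      rw [le_div_iff₀ hη0]
      have e1 : p * η * (S.F k).n ≤ u k * (S.F k).n := by
        rw [hu]
        have e2 : (p0 k * (Real.logb 2 (V k + 2) / (S.F k).n + s) +
          (Real.logb 2 (U k + 2) / (S.F k).n + (s - c)) + 2 / (S.F k).n - ft k) * (S.F k).n =
          p0 k * (Real.logb 2 (V k + 2) + s * (S.F k).n) +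
          (Real.logb 2 (U k + 2) + (s - c) * (S.F k).n) + 2 - ft k * (S.F k).n := by
          field_simp
        show p * η * (S.F k).n ≤ (p0 k * (Real.logb 2 (V k + 2) / (S.F k).n + s) +
          (Real.logb 2 (U k + 2) / (S.F k).n + (s - c)) + 2 / (S.F k).n - ft k) * (S.F k).n
        rw [e2]
        have e3 : p * (η * (S.F k).n) = p * η * (S.F k).n := by ring
        rw [e3] at hp1''
        linarith
      exact le_of_mul_le_mul_right e1 hn
    -- the number of cells
    set AA : ℝ := ((m : ℝ) - 1) * s + (2 * m + 2) * (c + η) with hAA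
    have hm1 : (1 : ℝ) ≤ m := by exact_mod_cast hm
    have hAA0 : 0 ≤ AA := by
      have e1 : 0 ≤ ((m : ℝ) - 1) * s := mul_nonneg (by linarith) hs.le
      have e2 : 0 ≤ (2 * (m : ℝ) + 2) * (c + η) := mul_nonneg hm2.le (by linarith)
      linarith
    have hWk0 : 0 ≤ W k := by
      rw [hWk]
      have : 0 ≤ KR k := by rw [hKRk]; linarith
      positivity
    have hN : max 1 (NN m C (K k + 1) (R k) (qq * hh) (S.dl s k)) ≤
        (W k + 2) * 2 ^ (AA * (S.F k).n) := by
      have hpow1 : (1 : ℝ) ≤ 2 ^ (AA * (S.F k).n) := Real.one_le_rpow (by norm_num) (by positivity)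
      apply max_le
      · calc (1 : ℝ) = 1 * 1 := by norm_num
          _ ≤ (W k + 2) * 2 ^ (AA * (S.F k).n) :=
              mul_le_mul (by linarith) hpow1 zero_le_one (by linarith)
      · unfold NN
        have e1 : 1 / (qq * hh * S.dl s k) ≤ 2 ^ ((c + η) * (S.F k).n) := by
          have e2 : qq * ww * S.dl s k = 2 ^ (-((c + η) * (S.F k).n)) := by
            rw [hqq, hww]
            unfold dl
            rw [← Real.rpow_add (by norm_num), ← Real.rpow_add (by norm_num)]
            congr 1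
            ring
          have e3 : qq * ww * S.dl s k ≤ qq * hh * S.dl s k := by
            apply mul_le_mul_of_nonneg_right _ hδ.le
            apply mul_le_mul_of_nonneg_left _ hqq0.le
            rw [hhh]
            nlinarith
          calc 1 / (qq * hh * S.dl s k) ≤ 1 / (qq * ww * S.dl s k) :=
                one_div_le_one_div_of_le (by positivity) e3
            _ = 2 ^ ((c + η) * (S.F k).n) := by
                rw [e2, Real.rpow_neg (by norm_num), one_div, inv_inv]
        have e4 : (1 / (qq * hh * S.dl s k)) ^ (2 * m + 2) ≤ 2 ^ ((2 * m + 2) * (c + η) * (S.F k).n) := by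
          calc _ ≤ ((2 : ℝ) ^ ((c + η) * (S.F k).n)) ^ (2 * m + 2) := pow_le_pow_left₀ (by positivity) e1 _
            _ = 2 ^ ((2 * m + 2) * (c + η) * (S.F k).n) := by
                rw [← Real.rpow_natCast, ← Real.rpow_mul (by norm_num)]
                congr 1
                push_cast
                ring
        have e5 : (1 / S.dl s k) ^ m * S.dl s k = 2 ^ (((m : ℝ) - 1) * s * (S.F k).n) := by
          have e6 : 1 / S.dl s k = 2 ^ (s * (S.F k).n) := by
            unfold dl
            rw [Real.rpow_neg (by norm_num), one_div, inv_inv]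
          rw [e6, ← Real.rpow_natCast, ← Real.rpow_mul (by norm_num)]
          unfold dl
          rw [← Real.rpow_add (by norm_num)]
          congr 1
          ring
        rw [e5]
        have e7 : (2 : ℝ) ^ (AA * (S.F k).n) = 2 ^ ((2 * m + 2) * (c + η) * (S.F k).n) *
            2 ^ (((m : ℝ) - 1) * s * (S.F k).n) := by
          rw [← Real.rpow_add (by norm_num)]
          congr 1
          rw [hAA]
          ring
        have e9 : C * R k ^ (3 * m + 2) * (K k + 1 + 2 * R k + 2) *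
            (1 / (qq * hh * S.dl s k)) ^ (2 * m + 2) ≤
            (W k + 2) * 2 ^ ((2 * m + 2) * (c + η) * (S.F k).n) := by
          apply mul_le_mul _ e4 (by positivity) (by linarith)
          have e8 : K k + 1 + 2 * R k + 2 = KR k := by rw [hKRk]; ring
          rw [e8, ← hWk]
          linarith
        refine (mul_le_mul_of_nonneg_right e9 (by positivity)).trans (le_of_eq ?_)
        rw [e7]
        ring
    have hlogN : Real.logb 2 (max 1 (NN m C (K k + 1) (R k) (qq * hh) (S.dl s k))) ≤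
        Real.logb 2 (W k + 2) + AA * (S.F k).n := by
      refine (Real.logb_le_logb_of_le (by norm_num) (by positivity) hN).trans (le_of_eq ?_)
      rw [Real.logb_mul (by positivity) (by positivity), Real.logb_rpow (by norm_num) (by norm_num)]
    have hl4R : 0 ≤ Real.logb 2 (V k + 2) := Real.logb_nonneg (by norm_num) (by rw [hVk]; linarith)
    have hfin2 : fx k * (S.F k).n ≤ f k * (S.F k).n := by
      have e1 : f k * (S.F k).n = (Real.logb 2 (W k + 2) +
          AA * (S.F k).n) + m * (Real.logb 2 (V k + 2) + s * (S.F k).n) * (p0 k + u k / η) + 1 := by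
        show ((Real.logb 2 (W k + 2) / (S.F k).n + AA) +
          m * (Real.logb 2 (V k + 2) / (S.F k).n + s) * (p0 k + u k / η) + 1 / (S.F k).n) * (S.F k).n = _
        generalize u k / η = U'
        field_simp
      rw [e1]
      have e2 : m * (Real.logb 2 (V k + 2) + s * (S.F k).n) * (p0 k + p) ≤
          m * (Real.logb 2 (V k + 2) + s * (S.F k).n) * (p0 k + u k / η) := by
        apply mul_le_mul_of_nonneg_left (by linarith)
        have : 0 ≤ s * (S.F k).n := by positivity
        exact mul_nonneg (Nat.cast_nonneg m) (by linarith)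
      have e3 : fx k * (S.F k).n ≤ Real.logb 2 (max 1 (NN m C (K k + 1) (R k) (qq * hh) (S.dl s k))) +
          m * Real.logb 2 (4 * R k / S.dl s k) * (p0 k + p) + 1 := hp2
      have e4 : m * Real.logb 2 (4 * R k / S.dl s k) * (p0 k + p) ≤
          m * (Real.logb 2 (V k + 2) + s * (S.F k).n) * (p0 k + p) := by
        apply mul_le_mul_of_nonneg_right _ (by linarith)
        exact mul_le_mul_of_nonneg_left l1 (Nat.cast_nonneg m)
      linarith
    exact le_of_mul_le_mul_right hfin2 hn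
  rw [hHx]
  have h1 : ul fx ≤ ul f := ul_mono hUBx (UB_of_tendsto hft') hfx
  rw [ul_eq hft'] at h1
  refine h1.trans ?_
  have h2 : (m : ℝ) * s * (((s - c) - ul ft) / η) ≤ 0 := by
    apply mul_nonpos_of_nonneg_of_nonpos (by positivity)
    exact div_nonpos_of_nonpos_of_nonneg (by linarith) hη0.le
  have h3 : (2 * (m : ℝ) + 2) * (c + η) = (2 * m + 2) * c + ε := by
    rw [mul_add, hηε]
  rw [h3]
  linarith

/-- the case of full windows -/
theorem END0 {S : Sp} {m : ℕ} (hm : 1 ≤ m) (a x : S.VV m) (t : S.VV 1) (s : ℝ)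
    (hs : 0 < s) (D : ℕ) (F : ∀ k, (S.F k).Ω → MvPolynomial (Fin (m + 1)) ℝ)
    (E : ∀ k, (S.F k).Ω → Prop) (hE : Typ E) (K : ℕ → ℝ) (hK : S.Sub K)
    (hF0 : ∀ᶠ k in UF, ∀ ω, (S.F k).μ ω ≠ 0 → E k ω → F k ω ≠ 0 ∧ (F k ω).totalDegree ≤ D)
    (hFZ : ∀ᶠ k in UF, ∀ ω ω', (S.F k).μ ω ≠ 0 → (S.F k).μ ω' ≠ 0 → E k ω → E k ω' →
      (S.F k).Z ω ω' → F k ω = F k ω')
    (hq : ∀ᶠ k in UF, ∀ ω, (S.F k).μ ω ≠ 0 → E k ω → ∃ q : Fin (m + 1) → ℝ, eval q (F k ω) = 0 ∧
      |t.v k ω 0 - q 0| ≤ K k * S.dl s k ∧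
      ∀ i : Fin m, |a.v k ω i + t.v k ω 0 * x.v k ω i - q i.succ| ≤ K k * S.dl s k)
    (ht : s ≤ h (t.dg s) (a.dg s ⊔ x.dg s)) :
    H (x.dg s) ≤ ((m : ℝ) - 1) * s := by
  obtain ⟨Ct, hCtS, hCt⟩ := t.bd
  have h1 := END hm a x t s 0 le_rfl hs D F E hE (fun k => K k + 2 * Ct k)
    (hK.add ((S.Sub_const (by norm_num : (0 : ℝ) ≤ 2)).mul hCtS)) hF0 hFZ (by
      filter_upwards [hq, hCtS.1] with k hk hC0 ω h2 h3
      obtain ⟨q, hq0, hqt, hqs⟩ := hk ω h2 h3
      have e1 : K k * S.dl s k ≤ (K k + 2 * Ct k) * S.dl s k :=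
        mul_le_mul_of_nonneg_right (by linarith) (S.dl_pos s k).le
      exact ⟨q, hq0, hqt.trans e1, fun i => (hqs i).trans e1⟩) (by
      filter_upwards [hCt, hK.1] with k hk hK0 ω ω' h2 h3 _ _ _
      have e1 := abs_le.1 (hk ω h2 0)
      have e2 := abs_le.1 (hk ω' h3 0)
      rw [S.dl_zero, mul_one, abs_le]
      constructor <;> linarith) (by rw [sub_zero]; exact ht)
  rw [mul_zero, add_zero] at h1
  exact h1

end

end Pool.Agent.Helper59.EN
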