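import Pool.Agent.Helper59.EN.Fin

/-! The finite form of the last step, entropies. -/

set_option autoImplicit false

namespace Pool.Agent.Helper59.EN

open Set MvPolynomial MeasureTheory Pool.Agent.Helper69.RK

noncomputable section

theorem mass_nn {Ω : Type} [Fintype Ω] (μ : Ω → ℝ) (hμ : ∀ ω, 0 ≤ μ ω) : 0 ≤ mass μ :=
  Finset.sum_nonneg fun ω _ => hμ ω

theorem mass_compl {Ω : Type} [Fintype Ω] (μ : Ω → ℝ) (E : Ω → Prop) :
    mass μ = mass (res μ E) + mass (res μ (fun ω => ¬ E ω)) := by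
  classical
  unfold mass res
  rw [← Finset.sum_add_distrib]
  refine Finset.sum_congr rfl fun ω _ => ?_
  by_cases h1 : E ω
  · rw [if_pos h1, if_neg (not_not.2 h1), add_zero]
  · rw [if_neg h1, if_pos h1, zero_add]

/-- the number of direction cells -/
def NN (m : ℕ) (C K R lam δ : ℝ) : ℝ :=
  C * R ^ (3 * m + 2) * (K + 2 * R + 2) * (1 / (lam * δ)) ^ (2 * m + 2) * ((1 / δ) ^ m * δ)

theorem fin_end (m D : ℕ) : ∃ C : ℝ, 0 < C ∧ ∀ R : ℝ, 1 ≤ R →
    ∀ {Ω ζ : Type} [Fintype Ω] (μ : Ω → ℝ) (Z : Ω → ζ) (a x : Ω → Fin m → ℝ) (t : Ω → ℝ)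
      (F : Ω → MvPolynomial (Fin (m + 1)) ℝ) (E : Ω → Prop) (δ K q h : ℝ),
    (∀ ω, 0 ≤ μ ω) → mass μ = 1 →
    0 < δ → δ ≤ 1 → 1 ≤ K → (K + 2 * R + 2) * δ ≤ 1 → 0 < q → q ≤ 1 → 1 ≤ h →
    (∀ ω, μ ω ≠ 0 → (∀ i, |a ω i| ≤ R ∧ |x ω i| ≤ R) ∧ |t ω| ≤ R - 1) →
    (∀ ω, μ ω ≠ 0 → E ω → F ω ≠ 0 ∧ (F ω).totalDegree ≤ D) →
    (∀ ω ω', μ ω ≠ 0 → μ ω' ≠ 0 → E ω → E ω' → Z ω = Z ω' → F ω = F ω') →
    (∀ ω, μ ω ≠ 0 → E ω → ∃ q : Fin (m + 1) → ℝ, eval q (F ω) = 0 ∧ |t ω - q 0| ≤ K * δ ∧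
      ∀ i : Fin m, |a ω i + t ω * x ω i - q i.succ| ≤ K * δ) →
    (∀ ω, μ ω ≠ 0 → E ω → ∀ T : Finset ℤ, (∀ k ∈ T, ∃ ω', μ ω' ≠ 0 ∧ E ω' ∧ Z ω' = Z ω ∧
      ⌊t ω' / δ⌋ = k) → (T.card : ℝ) ≤ h) →
    ∃ p : ℝ, 0 ≤ p ∧
      CH μ (fun ω => ⌊t ω / δ⌋) (fun ω => ((fun i => ⌊a ω i / δ⌋, fun i => ⌊x ω i / δ⌋), Z ω)) +
        p * Real.logb 2 (1 / q) ≤
        mass (res μ (fun ω => ¬ E ω)) * Real.logb 2 (4 * R / δ) + Real.logb 2 h + 2 ∧
      CH μ (fun ω i => ⌊x ω i / δ⌋) Z ≤ Real.logb 2 (max 1 (NN m C K R (q * h) δ)) +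
        m * Real.logb 2 (4 * R / δ) * (mass (res μ (fun ω => ¬ E ω)) + p) + 1 := by
  classical
  obtain ⟨C, hC, hcount⟩ := fin_count m D
  refine ⟨C, hC, ?_⟩
  intro R hR Ω ζ _ μ Z a x t F E δ K q h hμ hmass hδ hδ1 hK hKδ hq hq1 hh hb hF hFZ hc hT
  set Lo : Ω → Prop := fun ω => (nv μ Z a x t E δ ω : ℝ) < q * h with hLo
  set p0 : ℝ := mass (res μ (fun ω => ¬ E ω)) with hp0
  set p1 : ℝ := mass (res μ (fun ω => E ω ∧ Lo ω)) with hp1
  set p2 : ℝ := mass (res μ (fun ω => E ω ∧ ¬ Lo ω)) with hp2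
  have hp00 : 0 ≤ p0 := mass_nn _ (res_nn μ _ hμ)
  have hp10 : 0 ≤ p1 := mass_nn _ (res_nn μ _ hμ)
  have hp20 : 0 ≤ p2 := mass_nn _ (res_nn μ _ hμ)
  have hsum : p0 + p1 + p2 = 1 := by
    have h1 := mass_compl μ E
    have h2 := mass_res_add μ E Lo
    rw [hmass] at h1
    linarith
  have hqh : 0 < q * h := mul_pos hq (by linarith)
  have hlogh : 0 ≤ Real.logb 2 h := Real.logb_nonneg (by norm_num) hh
  -- the side length of the box of cells
  have hbox : 2 * R / δ + 1 + 1 ≤ 4 * R / δ := by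
    have h1 : 1 ≤ R / δ := by
      rw [le_div_iff₀ hδ]
      linarith
    have h2 : 2 * R / δ = 2 * (R / δ) := by ring
    have h3 : 4 * R / δ = 4 * (R / δ) := by ring
    rw [h2, h3]
    linarith
  have hbox0 : 0 < 2 * R / δ + 1 + 1 := by positivity
  have hlogbox : Real.logb 2 (2 * R / δ + 1 + 1) ≤ Real.logb 2 (4 * R / δ) :=
    Real.logb_le_logb_of_le (by norm_num) hbox0 hbox
  have hlogbox0 : 0 ≤ Real.logb 2 (4 * R / δ) :=
    (Real.logb_nonneg (by norm_num) (by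
      have : 0 ≤ 2 * R / δ := by positivity
      linarith)).trans hlogbox
  refine ⟨p1, hp10, ?_, ?_⟩
  · -- times
    set G : Ω → ((Fin m → ℤ) × (Fin m → ℤ)) × ζ := fun ω =>
      ((fun i => ⌊a ω i / δ⌋, fun i => ⌊x ω i / δ⌋), Z ω) with hG
    have h1 := CH_split μ (fun ω => ⌊t ω / δ⌋) G E hμ
    have h2 : CH (res μ (fun ω => ¬ E ω)) (fun ω => ⌊t ω / δ⌋) G ≤ p0 * Real.logb 2 (4 * R / δ) := by
      have e1 : CH (res μ (fun ω => ¬ E ω)) (fun ω => ⌊t ω / δ⌋) G =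
          CH (res μ (fun ω => ¬ E ω)) (fun ω => fun _ : Fin 1 => ⌊t ω / δ⌋) G := by
        apply e2_CH_congr
        · intro ω ω' _ _
          exact Iff.rfl
        · intro ω ω' _ _
          constructor
          · intro h'
            have h'' := Prod.mk.inj h'
            exact Prod.ext (funext fun _ => h''.1) h''.2
          · intro h'
            have h'' := Prod.mk.inj h'
            exact Prod.ext (congrFun h''.1 0) h''.2
      rw [e1]
      have e2 := CH_box (m := 1) (res μ (fun ω => ¬ E ω)) (fun ω => fun _ : Fin 1 => ⌊t ω / δ⌋) G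
        (2 * R / δ + 1) (res_nn μ _ hμ) (by positivity) (by
          intro ω ω' h3 h4 _
          have h5 := (hb ω (res_ne _ _ _ h3).1).2
          have h6 := (hb ω' (res_ne _ _ _ h4).1).2
          exact fl_diff hδ (by linarith) (by linarith))
      refine e2.trans ?_
      rw [Nat.cast_one, one_mul, mul_comm]
      exact mul_le_mul_of_nonneg_left hlogbox hp00
    have h3 := CH_split (res μ E) (fun ω => ⌊t ω / δ⌋) G Lo (res_nn μ _ hμ)
    rw [res_res, res_res] at h3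
    have h4 : CH (res μ (fun ω => E ω ∧ Lo ω)) (fun ω => ⌊t ω / δ⌋) G ≤
        p1 * Real.logb 2 (q * h) := by
      apply CH_card _ _ _ _ (res_nn μ _ hμ)
      intro ω hω T hTT
      obtain ⟨hω1, hω2, hω3⟩ := res_ne _ _ _ hω
      refine le_trans ?_ (le_of_lt hω3)
      unfold nv
      norm_cast
      apply Finset.card_le_card
      intro k hk
      obtain ⟨ω', hω', hG', rfl⟩ := hTT k hk
      obtain ⟨h5, h6, _⟩ := res_ne _ _ _ hω'
      rw [hG, Prod.mk.injEq, Prod.mk.injEq] at hG'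
      rw [Finset.mem_image]
      exact ⟨ω', Finset.mem_filter.2 ⟨Finset.mem_univ _, h5, h6, fun i => congrFun hG'.1.1 i,
        fun i => congrFun hG'.1.2 i, hG'.2⟩, rfl⟩
    have h5 : CH (res μ (fun ω => E ω ∧ ¬ Lo ω)) (fun ω => ⌊t ω / δ⌋) G ≤
        p2 * Real.logb 2 h := by
      apply CH_card _ _ _ _ (res_nn μ _ hμ)
      intro ω hω T hTT
      obtain ⟨hω1, hω2, _⟩ := res_ne _ _ _ hω
      apply hT ω hω1 hω2
      intro k hk
      obtain ⟨ω', hω', hG', hk'⟩ := hTT k hk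
      obtain ⟨h5, h6, _⟩ := res_ne _ _ _ hω'
      rw [hG, Prod.mk.injEq, Prod.mk.injEq] at hG'
      exact ⟨ω', h5, h6, hG'.2, hk'⟩
    have h6 : mass (res μ E) ≤ 1 := by
      have := mass_compl μ E
      rw [hmass] at this
      linarith
    have h7 : Real.logb 2 (q * h) = Real.logb 2 h - Real.logb 2 (1 / q) := by
      rw [Real.logb_mul hq.ne' (by linarith), one_div, Real.logb_inv]
      ring
    rw [hmass] at h1
    rw [h7] at h4
    have h8 : p1 * (Real.logb 2 h - Real.logb 2 (1 / q)) + p2 * Real.logb 2 h =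
        (p1 + p2) * Real.logb 2 h - p1 * Real.logb 2 (1 / q) := by ring
    have h9 : (p1 + p2) * Real.logb 2 h ≤ 1 * Real.logb 2 h :=
      mul_le_mul_of_nonneg_right (by linarith) hlogh
    linarith
  · -- directions
    have h1 := CH_split μ (fun ω i => ⌊x ω i / δ⌋) Z (fun ω => E ω ∧ ¬ Lo ω) hμ
    have h2 : CH (res μ (fun ω => ¬ (E ω ∧ ¬ Lo ω))) (fun ω i => ⌊x ω i / δ⌋) Z ≤
        m * Real.logb 2 (4 * R / δ) * (p0 + p1) := by
      have e2 := CH_box (m := m) (res μ (fun ω => ¬ (E ω ∧ ¬ Lo ω))) (fun ω i => ⌊x ω i / δ⌋) Z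
        (2 * R / δ + 1) (res_nn μ _ hμ) (by positivity) (by
          intro ω ω' h3 h4 i
          exact fl_diff hδ ((hb ω (res_ne _ _ _ h3).1).1 i).2 ((hb ω' (res_ne _ _ _ h4).1).1 i).2)
      refine e2.trans ?_
      have e3 : mass (res μ (fun ω => ¬ (E ω ∧ ¬ Lo ω))) = p0 + p1 := by
        have := mass_compl μ (fun ω => E ω ∧ ¬ Lo ω)
        rw [hmass] at this
        linarith
      rw [e3]
      apply mul_le_mul_of_nonneg_right _ (by linarith)
      exact mul_le_mul_of_nonneg_left hlogbox (Nat.cast_nonneg m)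
    have h3 : CH (res μ (fun ω => E ω ∧ ¬ Lo ω)) (fun ω i => ⌊x ω i / δ⌋) Z ≤
        p2 * Real.logb 2 (max 1 (NN m C K R (q * h) δ)) := by
      apply CH_card _ _ _ _ (res_nn μ _ hμ)
      intro ω hω T hTT
      refine le_trans ?_ (le_max_right _ _)
      refine hcount R hR μ Z a x t F E δ K (q * h) hδ hδ1 hK hKδ hqh hb hF hFZ hc ω T ?_
      intro X hX
      obtain ⟨ω', hω', hZ', hX'⟩ := hTT X hX
      obtain ⟨h5, h6, h7⟩ := res_ne _ _ _ hω'
      exact ⟨ω', h5, h6, not_lt.1 h7, hZ', hX'⟩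
    have h4 : 0 ≤ Real.logb 2 (max 1 (NN m C K R (q * h) δ)) :=
      Real.logb_nonneg (by norm_num) (le_max_left _ _)
    have h5 : p2 * Real.logb 2 (max 1 (NN m C K R (q * h) δ)) ≤
        1 * Real.logb 2 (max 1 (NN m C K R (q * h) δ)) :=
      mul_le_mul_of_nonneg_right (by linarith) h4
    rw [hmass] at h1
    linarith

end

end Pool.Agent.Helper59.EN
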