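import Pool.Agent.Helper59.EN.Cnt
import Pool.Agent.Helper31.EC.Sp

/-! The finite form of the last step. -/

set_option autoImplicit false

namespace Pool.Agent.Helper59.EN

open Set MvPolynomial MeasureTheory Pool.Agent.Helper69.RK

noncomputable section

theorem res_ne {Ω : Type} (μ : Ω → ℝ) (E : Ω → Prop) (ω : Ω) (h : res μ E ω ≠ 0) : μ ω ≠ 0 ∧ E ω := by
  classical
  unfold res at h
  by_cases hE : E ω
  · rw [if_pos hE] at h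
    exact ⟨h, hE⟩
  · rw [if_neg hE] at h
    exact absurd rfl h

theorem res_nn {Ω : Type} (μ : Ω → ℝ) (E : Ω → Prop) (hμ : ∀ ω, 0 ≤ μ ω) (ω : Ω) : 0 ≤ res μ E ω := by
  classical
  unfold res
  split_ifs
  · exact hμ ω
  · exact le_rfl

/-- entropy is at most the logarithm of a constant bound for the number of values -/
theorem CH_card {Ω α γ : Type} [Fintype Ω] (μ : Ω → ℝ) (f : Ω → α) (g : Ω → γ) (c : ℝ)
    (hμ : ∀ ω, 0 ≤ μ ω)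
    (h : ∀ ω, μ ω ≠ 0 → ∀ T : Finset α, (∀ a ∈ T, ∃ ω', μ ω' ≠ 0 ∧ g ω' = g ω ∧ f ω' = a) →
      (T.card : ℝ) ≤ c) :
    CH μ f g ≤ mass μ * Real.logb 2 c := by
  classical
  have h1 := (st_E3.1) Ω α γ μ f g (fun _ => c) hμ (by
    intro ω hω
    apply h ω hω
    intro a ha
    rw [Finset.mem_image] at ha
    obtain ⟨ω', hω', rfl⟩ := ha
    rw [Finset.mem_filter] at hω'
    exact ⟨ω', hω'.2.1, hω'.2.2, rfl⟩)
  refine h1.trans (le_of_eq ?_)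
  unfold mass
  rw [Finset.sum_mul]

theorem mass_res_add {Ω : Type} [Fintype Ω] (μ : Ω → ℝ) (E G : Ω → Prop) :
    mass (res μ E) = mass (res μ (fun ω => E ω ∧ G ω)) + mass (res μ (fun ω => E ω ∧ ¬ G ω)) := by
  classical
  unfold mass res
  rw [← Finset.sum_add_distrib]
  refine Finset.sum_congr rfl fun ω _ => ?_
  by_cases h1 : E ω
  · by_cases h2 : G ω
    · rw [if_pos h1, if_pos ⟨h1, h2⟩, if_neg (fun h => h.2 h2), add_zero]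
    · rw [if_pos h1, if_neg (fun h => h2 h.2), if_pos ⟨h1, h2⟩, zero_add]
  · rw [if_neg h1, if_neg (fun h => h1 h.1), if_neg (fun h => h1 h.1), add_zero]

theorem res_res {Ω : Type} (μ : Ω → ℝ) (E G : Ω → Prop) :
    res (res μ E) G = res μ (fun ω => E ω ∧ G ω) := by
  funext ω
  by_cases h1 : E ω
  · by_cases h2 : G ω
    · simp [res, h1, h2]
    · simp [res, h1, h2]
  · simp [res, h1]

/-- splitting along an event, upper bound -/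
theorem CH_split {Ω α γ : Type} [Fintype Ω] (μ : Ω → ℝ) (f : Ω → α) (g : Ω → γ) (E : Ω → Prop)
    (hμ : ∀ ω, 0 ≤ μ ω) :
    CH μ f g ≤ CH (res μ E) f g + CH (res μ (fun ω => ¬ E ω)) f g + mass μ :=
  ((st_E4 st_E1 st_E3).2.1 Ω α γ μ f g E hμ).2

/-- vector variables in a box -/
theorem CH_box {Ω γ : Type} [Fintype Ω] {m : ℕ} (μ : Ω → ℝ) (X : Ω → Fin m → ℤ) (g : Ω → γ) (K : ℝ)
    (hμ : ∀ ω, 0 ≤ μ ω) (hK : 0 ≤ K) (h : ∀ ω ω', μ ω ≠ 0 → μ ω' ≠ 0 → ∀ i, |(X ω i : ℝ) - X ω' i| ≤ K) :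
    CH μ X g ≤ m * Real.logb 2 (K + 1) * mass μ :=
  st_E3.2 Ω γ m μ X g K hμ hK fun ω ω' h1 h2 _ => h ω ω' h1 h2

theorem fl_diff {a b δ R : ℝ} (hδ : 0 < δ) (ha : |a| ≤ R) (hb : |b| ≤ R) :
    |((⌊a / δ⌋ : ℤ) : ℝ) - (⌊b / δ⌋ : ℤ)| ≤ 2 * R / δ + 1 := by
  have h1 := Int.floor_le (a / δ)
  have h2 := Int.lt_floor_add_one (a / δ)
  have h3 := Int.floor_le (b / δ)
  have h4 := Int.lt_floor_add_one (b / δ)
  have h5 : |a / δ - b / δ| ≤ 2 * R / δ := by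
    rw [← sub_div, abs_div, abs_of_pos hδ]
    apply div_le_div_of_nonneg_right _ hδ.le
    have := abs_sub a b
    have e1 := abs_le.1 ha
    have e2 := abs_le.1 hb
    rw [abs_le]
    constructor <;> linarith
  rw [abs_le] at h5 ⊢
  constructor <;> linarith [h5.1, h5.2]

open Classical in
/-- number of time cells of the good points on the line cell of `ω` -/
def nv {Ω ζ : Type} [Fintype Ω] {m : ℕ} (μ : Ω → ℝ) (Z : Ω → ζ) (a x : Ω → Fin m → ℝ) (t : Ω → ℝ)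
    (E : Ω → Prop) (δ : ℝ) (ω : Ω) : ℕ :=
  ((Finset.univ.filter (fun ω' => μ ω' ≠ 0 ∧ E ω' ∧ (∀ i, ⌊a ω' i / δ⌋ = ⌊a ω i / δ⌋) ∧
    (∀ i, ⌊x ω' i / δ⌋ = ⌊x ω i / δ⌋) ∧ Z ω' = Z ω)).image (fun ω' => ⌊t ω' / δ⌋)).card

open Classical in
/-- number of direction cells with a good line -/
theorem fin_count (m D : ℕ) : ∃ C : ℝ, 0 < C ∧ ∀ R : ℝ, 1 ≤ R →
    ∀ {Ω ζ : Type} [Fintype Ω] (μ : Ω → ℝ) (Z : Ω → ζ) (a x : Ω → Fin m → ℝ) (t : Ω → ℝ)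
      (F : Ω → MvPolynomial (Fin (m + 1)) ℝ) (E : Ω → Prop) (δ K lam : ℝ),
    0 < δ → δ ≤ 1 → 1 ≤ K → (K + 2 * R + 2) * δ ≤ 1 → 0 < lam →
    (∀ ω, μ ω ≠ 0 → (∀ i, |a ω i| ≤ R ∧ |x ω i| ≤ R) ∧ |t ω| ≤ R - 1) →
    (∀ ω, μ ω ≠ 0 → E ω → F ω ≠ 0 ∧ (F ω).totalDegree ≤ D) →
    (∀ ω ω', μ ω ≠ 0 → μ ω' ≠ 0 → E ω → E ω' → Z ω = Z ω' → F ω = F ω') →
    (∀ ω, μ ω ≠ 0 → E ω → ∃ q : Fin (m + 1) → ℝ, eval q (F ω) = 0 ∧ |t ω - q 0| ≤ K * δ ∧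
      ∀ i : Fin m, |a ω i + t ω * x ω i - q i.succ| ≤ K * δ) →
    ∀ (ω₀ : Ω) (T : Finset (Fin m → ℤ)), (∀ X ∈ T, ∃ ω', μ ω' ≠ 0 ∧ E ω' ∧
      lam ≤ (nv μ Z a x t E δ ω' : ℝ) ∧ Z ω' = Z ω₀ ∧ (fun i => ⌊x ω' i / δ⌋) = X) →
    (T.card : ℝ) ≤ C * R ^ (3 * m + 2) * (K + 2 * R + 2) * (1 / (lam * δ)) ^ (2 * m + 2) *
      ((1 / δ) ^ m * δ) := by
  obtain ⟨C, hC, hcount⟩ := count m D
  refine ⟨C, hC, ?_⟩
  intro R hR Ω ζ _ μ Z a x t F E δ K lam hδ hδ1 hK hKδ hlam hb hF hFZ hc ω₀ T hT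
  rcases T.eq_empty_or_nonempty with hTe | ⟨X₀, hX₀⟩
  · rw [hTe, Finset.card_empty, Nat.cast_zero]
    have : 0 < K + 2 * R + 2 := by linarith
    positivity
  have : Nonempty Ω := ⟨ω₀⟩
  choose! w hw1 hw2 hw3 hw4 hw5 using hT
  -- the polynomial of the base cell
  have hF0 := hF (w X₀) (hw1 X₀ hX₀) (hw2 X₀ hX₀)
  refine hcount R hR (F (w X₀)) hF0.1 hF0.2 δ (K + 2 * R + 2) lam hδ hδ1 (by linarith) hKδ hlam T
    (fun X => a (w X)) (fun X => x (w X)) (fun X => (Finset.univ.filter (fun ω' => μ ω' ≠ 0 ∧ E ω' ∧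
      (∀ i, ⌊a ω' i / δ⌋ = ⌊a (w X) i / δ⌋) ∧ (∀ i, ⌊x ω' i / δ⌋ = ⌊x (w X) i / δ⌋) ∧
      Z ω' = Z (w X))).image (fun ω' => ⌊t ω' / δ⌋)) ?_ ?_ ?_ ?_ ?_
  · intro X hX i
    exact (hb (w X) (hw1 X hX)).1 i
  · intro X hX Y hY h
    rw [← hw5 X hX, ← hw5 Y hY]
    funext i
    exact h i
  · intro X hX
    exact hw3 X hX
  · intro X hX k hk
    rw [Finset.mem_image] at hk
    obtain ⟨ω', hω', rfl⟩ := hk
    rw [Finset.mem_filter] at hω'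
    have h1 := (hb ω' hω'.2.1).2
    have h2 := Int.floor_le (t ω' / δ)
    have h3 := Int.lt_floor_add_one (t ω' / δ)
    rw [le_div_iff₀ hδ] at h2
    rw [div_lt_iff₀ hδ] at h3
    have h4 := abs_le.1 h1
    rw [abs_le]
    constructor <;> nlinarith
  · intro X hX k hk
    rw [Finset.mem_image] at hk
    obtain ⟨ω', hω', rfl⟩ := hk
    rw [Finset.mem_filter] at hω'
    obtain ⟨_, hμ', hE', ha', hx', hZ'⟩ := hω'
    have hFe : F ω' = F (w X₀) := hFZ ω' (w X₀) hμ' (hw1 X₀ hX₀) hE' (hw2 X₀ hX₀)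
      (hZ'.trans ((hw4 X hX).trans (hw4 X₀ hX₀).symm))
    obtain ⟨q, hq0, hqt, hqs⟩ := hc ω' hμ' hE'
    rw [hFe] at hq0
    have h2 := Int.floor_le (t ω' / δ)
    have h3 := Int.lt_floor_add_one (t ω' / δ)
    rw [le_div_iff₀ hδ] at h2
    rw [div_lt_iff₀ hδ] at h3
    have ht1 : |((⌊t ω' / δ⌋ : ℤ) : ℝ) * δ - t ω'| ≤ δ := by
      rw [abs_le]
      constructor <;> nlinarith
    have hbw := hb (w X) (hw1 X hX)
    have hb' := hb ω' hμ'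
    refine ⟨q, hq0, ?_, fun i => ?_⟩
    · calc |((⌊t ω' / δ⌋ : ℤ) : ℝ) * δ - q 0| ≤ |((⌊t ω' / δ⌋ : ℤ) : ℝ) * δ - t ω'| + |t ω' - q 0| :=
            abs_sub_le _ _ _
        _ ≤ δ + K * δ := add_le_add ht1 hqt
        _ ≤ (K + 2 * R + 2) * δ := by nlinarith
    · have hxc : |x ω' i - x (w X) i| ≤ δ :=
        Ce_close δ hδ (x (w X)) (x ω') (fun i => hx' i) i
      have hac : |a ω' i - a (w X) i| ≤ δ :=
        Ce_close δ hδ (a (w X)) (a ω') (fun i => ha' i) i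
      have e1 : a (w X) i + ((⌊t ω' / δ⌋ : ℤ) : ℝ) * δ * x (w X) i - q i.succ =
          (a ω' i + t ω' * x ω' i - q i.succ) - (a ω' i - a (w X) i) -
          t ω' * (x ω' i - x (w X) i) + (((⌊t ω' / δ⌋ : ℤ) : ℝ) * δ - t ω') * x (w X) i := by ring
      have e2 : |t ω' * (x ω' i - x (w X) i)| ≤ (R - 1) * δ := by
        rw [abs_mul]
        exact mul_le_mul hb'.2 hxc (abs_nonneg _) (by linarith)
      have e3 : |(((⌊t ω' / δ⌋ : ℤ) : ℝ) * δ - t ω') * x (w X) i| ≤ δ * R := by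
        rw [abs_mul]
        exact mul_le_mul ht1 (hbw.1 i).2 (abs_nonneg _) hδ.le
      rw [e1]
      calc _ ≤ |(a ω' i + t ω' * x ω' i - q i.succ) - (a ω' i - a (w X) i) -
          t ω' * (x ω' i - x (w X) i)| + |(((⌊t ω' / δ⌋ : ℤ) : ℝ) * δ - t ω') * x (w X) i| :=
            abs_add_le _ _
        _ ≤ (|(a ω' i + t ω' * x ω' i - q i.succ) - (a ω' i - a (w X) i)| +
          |t ω' * (x ω' i - x (w X) i)|) + |(((⌊t ω' / δ⌋ : ℤ) : ℝ) * δ - t ω') * x (w X) i| :=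
            add_le_add (abs_sub _ _) le_rfl
        _ ≤ ((|a ω' i + t ω' * x ω' i - q i.succ| + |a ω' i - a (w X) i|) +
          |t ω' * (x ω' i - x (w X) i)|) + |(((⌊t ω' / δ⌋ : ℤ) : ℝ) * δ - t ω') * x (w X) i| :=
            add_le_add (add_le_add (abs_sub _ _) le_rfl) le_rfl
        _ ≤ ((K * δ + δ) + (R - 1) * δ) + δ * R :=
            add_le_add (add_le_add (add_le_add (hqs i) hac) e2) e3
        _ ≤ (K + 2 * R + 2) * δ := by nlinarith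

end

end Pool.Agent.Helper59.EN
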