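import Pool.Agent.Helper59.EN.Vol
import Pool.Agent.Helper59.PWE.Main

/-! Slices of tubes; the polynomial Wolff axiom for tubes of hypersurfaces. -/

set_option autoImplicit false

namespace Pool.Agent.Helper59.EN

open Set MvPolynomial MeasureTheory Filter Topology
open scoped ENNReal

variable {m : ℕ}

/-- slice at time `t` of the tube -/
def Sl (F : MvPolynomial (Fin (m + 1)) ℝ) (t ρ r : ℝ) : Set (Fin m → ℝ) :=
  {P | (∀ i, |P i| ≤ ρ) ∧ ∃ q : Fin (m + 1) → ℝ, eval q F = 0 ∧ |t - q 0| ≤ r ∧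
    ∀ i : Fin m, |P i - q i.succ| ≤ r}

theorem isCompact_Sl (F : MvPolynomial (Fin (m + 1)) ℝ) (t ρ r : ℝ) : IsCompact (Sl F t ρ r) := by
  set T : Set ((Fin m → ℝ) × (Fin (m + 1) → ℝ)) := {z | (∀ i, |z.1 i| ≤ ρ) ∧ eval z.2 F = 0 ∧
    |t - z.2 0| ≤ r ∧ ∀ i : Fin m, |z.1 i - z.2 i.succ| ≤ r} with hT
  have h1 : Sl F t ρ r = Prod.fst '' T := by
    ext P
    constructor
    · rintro ⟨hP, q, hq⟩
      exact ⟨(P, q), ⟨hP, hq⟩, rfl⟩
    · rintro ⟨⟨P', q⟩, ⟨hP, hq⟩, rfl⟩
      exact ⟨hP, q, hq⟩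
  rw [h1]
  refine IsCompact.image ?_ continuous_fst
  have hcl : IsClosed T := by
    rw [hT]
    simp only [Set.ofPred_and, Set.ofPred_forall]
    refine IsClosed.inter (isClosed_iInter fun i => ?_) (IsClosed.inter ?_ (IsClosed.inter ?_
      (isClosed_iInter fun i => ?_)))
    · exact isClosed_le (by fun_prop) continuous_const
    · exact isClosed_eq ((MvPolynomial.continuous_eval F).comp continuous_snd) continuous_const
    · exact isClosed_le (by fun_prop) continuous_const
    · exact isClosed_le (by fun_prop) continuous_const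
  have hbd : Bornology.IsBounded T := by
    refine (Metric.isBounded_closedBall (x := (0 : (Fin m → ℝ) × (Fin (m + 1) → ℝ)))
      (r := |ρ| + |r| + |t|)).subset ?_
    rintro ⟨P, q⟩ ⟨hP, _, h0, hs⟩
    rw [mem_closedBall_zero_iff, Prod.norm_def, max_le_iff]
    constructor
    · refine (pi_norm_le_iff_of_nonneg (by positivity)).2 fun i => ?_
      rw [Real.norm_eq_abs]
      have := hP i
      have e1 := le_abs_self ρ
      have e2 := abs_nonneg r
      have e3 := abs_nonneg t
      linarith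
    · refine (pi_norm_le_iff_of_nonneg (by positivity)).2 fun i => ?_
      rw [Real.norm_eq_abs]
      have e1 := le_abs_self ρ
      have e2 := le_abs_self r
      have e4 := abs_nonneg t
      have e5 := abs_nonneg ρ
      refine Fin.cases ?_ (fun i => ?_) i
      · show |q 0| ≤ _
        have h3 : |q 0| ≤ |t - q 0| + |t| := by
          have := abs_sub_abs_le_abs_sub (q 0) t
          rw [abs_sub_comm] at this
          linarith
        have h4 : |t - q 0| ≤ r := h0
        linarith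
      · show |q i.succ| ≤ _
        have h3 : |q i.succ| ≤ |P i - q i.succ| + |P i| := by
          have := abs_sub_abs_le_abs_sub (q i.succ) (P i)
          rw [abs_sub_comm] at this
          linarith
        have h4 : |P i - q i.succ| ≤ r := hs i
        have h5 : |P i| ≤ ρ := hP i
        linarith
  exact Metric.isCompact_of_isClosed_isBounded hcl hbd

/-- sum of the volumes of the slices -/
theorem sum_slices (F : MvPolynomial (Fin (m + 1)) ℝ) (ρ r δ : ℝ) (hδ : 0 < δ) (Ks : Finset ℤ)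
    (hK : ∀ k ∈ Ks, |(k : ℝ) * δ| ≤ ρ) :
    ∑ k ∈ Ks, ENNReal.ofReal δ * volume (Sl F ((k : ℝ) * δ) ρ r) ≤ volume (Tb F (ρ + δ) (r + δ)) := by
  set e := MeasurableEquiv.piFinSuccAbove (fun _ : Fin (m + 1) => ℝ) 0 with he
  have hmp : MeasurePreserving e volume volume := volume_preserving_piFinSuccAbove (fun _ => ℝ) 0
  set U : Set (ℝ × (Fin m → ℝ)) := ⋃ k ∈ Ks, (Set.Ico ((k : ℝ) * δ) (((k : ℝ) + 1) * δ)) ×ˢ
    Sl F ((k : ℝ) * δ) ρ r with hU
  have hmeas : ∀ k : ℤ, MeasurableSet ((Set.Ico ((k : ℝ) * δ) (((k : ℝ) + 1) * δ)) ×ˢ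
    Sl F ((k : ℝ) * δ) ρ r) := fun k =>
      measurableSet_Ico.prod (isCompact_Sl F _ _ _).isClosed.measurableSet
  have hUm : MeasurableSet U := Finset.measurableSet_biUnion _ fun k _ => hmeas k
  have hsub : e ⁻¹' U ⊆ Tb F (ρ + δ) (r + δ) := by
    intro z hz
    rw [mem_preimage, hU, mem_iUnion₂] at hz
    obtain ⟨k, hk, hz1, hz2, q, hq, hq0, hqs⟩ := hz
    have hz1' : (k : ℝ) * δ ≤ z 0 ∧ z 0 < ((k : ℝ) + 1) * δ := hz1
    have hz2' : ∀ i : Fin m, |z i.succ| ≤ ρ := fun i => hz2 i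
    have hqs' : ∀ i : Fin m, |z i.succ - q i.succ| ≤ r := fun i => hqs i
    have hkb := abs_le.1 (hK k hk)
    refine ⟨fun i => ?_, q, hq, fun i => ?_⟩
    · refine Fin.cases ?_ (fun i => ?_) i
      · rw [abs_le]
        constructor <;> linarith
      · exact (hz2' i).trans (by linarith)
    · refine Fin.cases ?_ (fun i => ?_) i
      · have := abs_le.1 hq0
        rw [abs_le]
        constructor <;> linarith
      · exact (hqs' i).trans (by linarith)
  refine le_trans (le_of_eq ?_) (measure_mono hsub)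
  rw [hmp.measure_preimage hUm.nullMeasurableSet, hU, measure_biUnion_finset]
  · refine Finset.sum_congr rfl fun k _ => ?_
    rw [Measure.volume_eq_prod, Measure.prod_prod, Real.volume_Ico]
    congr 2
    ring
  · intro k _ k' _ hkk
    rw [Function.onFun, Set.disjoint_prod]
    left
    rw [Set.disjoint_left]
    intro x hx hx'
    apply hkk
    have h1 : (k : ℝ) * δ < ((k' : ℝ) + 1) * δ := hx.1.trans_lt hx'.2
    have h2 : (k' : ℝ) * δ < ((k : ℝ) + 1) * δ := hx'.1.trans_lt hx.2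
    have h3 : (k : ℝ) < (k' : ℝ) + 1 := lt_of_mul_lt_mul_right h1 hδ.le
    have h4 : (k' : ℝ) < (k : ℝ) + 1 := lt_of_mul_lt_mul_right h2 hδ.le
    have h5 : k < k' + 1 := by exact_mod_cast h3
    have h6 : k' < k + 1 := by exact_mod_cast h4
    omega
  · intro k _
    exact hmeas k

/-- the polynomial of the container -/
noncomputable def PsT (F : MvPolynomial (Fin (m + 1)) ℝ) (Λ t α β : ℝ) :
    MvPolynomial (Fin m ⊕ Fin (m + 1)) ℝ :=
  C Λ * (rename Sum.inr F) ^ 2 + C α * ((X (Sum.inr 0) - C t) ^ 2 +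
    ∑ i : Fin m, (X (Sum.inl i) - X (Sum.inr i.succ)) ^ 2) + C β * ∑ i : Fin m, (X (Sum.inl i)) ^ 2

theorem eval_PsT (F : MvPolynomial (Fin (m + 1)) ℝ) (Λ t α β : ℝ) (P : Fin m → ℝ)
    (q : Fin (m + 1) → ℝ) : eval (Sum.elim P q) (PsT F Λ t α β) =
      Λ * (eval q F) ^ 2 + α * ((q 0 - t) ^ 2 + ∑ i : Fin m, (P i - q i.succ) ^ 2) +
      β * ∑ i : Fin m, (P i) ^ 2 := by
  unfold PsT
  simp only [map_add, map_mul, map_pow, map_sub, map_sum, eval_C, eval_X, Sum.elim_inl,
    Sum.elim_inr, eval_rename]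
  rfl

theorem tdeg_PsT (F : MvPolynomial (Fin (m + 1)) ℝ) (Λ t α β : ℝ) (D : ℕ) (hD : F.totalDegree ≤ D) :
    (PsT F Λ t α β).totalDegree ≤ 2 * D + 1 + 1 := by
  unfold PsT
  have h2 : ∀ p : MvPolynomial (Fin m ⊕ Fin (m + 1)) ℝ, p.totalDegree ≤ 1 →
      (p ^ 2).totalDegree ≤ 2 * D + 1 + 1 := by
    intro p hp
    refine (totalDegree_pow _ _).trans ?_
    omega
  refine (totalDegree_add _ _).trans (max_le ((totalDegree_add _ _).trans (max_le ?_ ?_)) ?_)
  · refine (totalDegree_mul _ _).trans ?_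
    rw [totalDegree_C, zero_add]
    refine (totalDegree_pow _ _).trans ?_
    have := (totalDegree_rename_le (Sum.inr : Fin (m + 1) → Fin m ⊕ Fin (m + 1)) F).trans hD
    omega
  · refine (totalDegree_mul _ _).trans ?_
    rw [totalDegree_C, zero_add]
    refine (totalDegree_add _ _).trans (max_le ?_ (totalDegree_finsetSum_le fun i _ => ?_))
    · apply h2
      refine (totalDegree_sub _ _).trans (max_le ?_ ?_)
      · rw [totalDegree_X]
      · rw [totalDegree_C]
        omega
    · apply h2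
      refine (totalDegree_sub _ _).trans (max_le ?_ ?_)
      · rw [totalDegree_X]
      · rw [totalDegree_X]
  · refine (totalDegree_mul _ _).trans ?_
    rw [totalDegree_C, zero_add]
    refine totalDegree_finsetSum_le fun i _ => ?_
    apply h2
    rw [totalDegree_X]

end Pool.Agent.Helper59.EN
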