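import Pool.Agent.Helper59.EN.Cov

/-! Volumes of tubular neighbourhoods of real hypersurfaces of bounded degree. -/

set_option autoImplicit false

namespace Pool.Agent.Helper59.EN

open Set MvPolynomial MeasureTheory
open scoped ENNReal

/-- the tube -/
def Tb {N : ℕ} (F : MvPolynomial (Fin N) ℝ) (ρ r : ℝ) : Set (Fin N → ℝ) :=
  {x | (∀ i, |x i| ≤ ρ) ∧ ∃ q : Fin N → ℝ, eval q F = 0 ∧ ∀ i, |x i - q i| ≤ r}

theorem tube (N D : ℕ) : ∃ C : ℕ, ∀ (ρ r : ℝ), 0 < r → r ≤ ρ → ∀ F : MvPolynomial (Fin (N + 1)) ℝ,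
    F ≠ 0 → F.totalDegree ≤ D → volume (Tb F ρ r) ≤ ENNReal.ofReal (C * (ρ ^ N * r)) := by
  classical
  obtain ⟨C, hC⟩ := cover N D
  refine ⟨C * 5 * 20 ^ N, fun ρ r hr hrρ F hF hD => ?_⟩
  have hρ : 0 < ρ := hr.trans_le hrρ
  -- the scaled polynomial
  set F' : MvPolynomial (Fin (N + 1)) ℝ := PWE.aff (fun _ => -2 * ρ) (fun _ => 4 * ρ) F with hF'
  have hF'0 : F' ≠ 0 := by
    intro h
    apply hF
    apply MvPolynomial.funext
    intro z
    have h1 := PWE.eval_aff (fun _ => -2 * ρ) (fun _ => 4 * ρ) F (fun i => (z i + 2 * ρ) / (4 * ρ))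
    have h2 : ((fun _ => -2 * ρ) + (fun _ => 4 * ρ) * (fun i => (z i + 2 * ρ) / (4 * ρ)) :
        Fin (N + 1) → ℝ) = z := by
      funext i
      simp only [Pi.add_apply, Pi.mul_apply]
      field_simp
      ring
    rw [h2, ← hF', h] at h1
    rw [← h1]
    simp
  set M : ℕ := ⌈4 * ρ / r⌉₊ with hM
  have h4 : 4 ≤ 4 * ρ / r := by
    rw [le_div_iff₀ hr]
    linarith
  have hM1 : 4 * ρ / r ≤ M := Nat.le_ceil _
  have hM2 : (M : ℝ) < 4 * ρ / r + 1 := Nat.ceil_lt_add_one (by linarith)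
  have hMr : (0 : ℝ) < M := by linarith
  have hM0 : 0 < M := by exact_mod_cast hMr
  have hMρ : M * r ≤ 5 * ρ := by
    have h5 : (M : ℝ) * r ≤ (4 * ρ / r + 1) * r := mul_le_mul_of_nonneg_right hM2.le hr.le
    have h6 : (4 * ρ / r + 1) * r = 4 * ρ + r := by field_simp
    linarith
  have hMρ' : 4 * ρ ≤ M * r := by
    rw [div_le_iff₀ hr] at hM1
    exact hM1
  have hcard := hC M hM0 F' hF'0 ((PWE.tdeg_aff _ _ _).trans hD)
  have hsub : Tb F ρ r ⊆ ⋃ c ∈ cz M F', Set.Icc (fun i : Fin (N + 1) =>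
      -2 * ρ + 4 * ρ * (((c i : ℕ) : ℝ) - 2) / M) (fun i => -2 * ρ + 4 * ρ * (((c i : ℕ) : ℝ) + 3) / M) := by
    rintro x ⟨hx, q, hq, hxq⟩
    have hq2 : ∀ i, |q i| ≤ 2 * ρ := by
      intro i
      have e1 := abs_le.1 (hx i)
      have e2 := abs_le.1 (hxq i)
      rw [abs_le]
      constructor <;> linarith
    set y : Fin (N + 1) → ℝ := fun i => (q i + 2 * ρ) / (4 * ρ) with hy
    have hy0 : ∀ i, 0 ≤ y i := fun i => by
      have := abs_le.1 (hq2 i)
      exact div_nonneg (by linarith) (by linarith)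
    have hy1 : ∀ i, y i ≤ 1 := fun i => by
      have := abs_le.1 (hq2 i)
      rw [hy]
      rw [div_le_one (by linarith)]
      linarith
    have hc : ∀ i, ∃ c : Fin M, ((c : ℕ) : ℝ) ≤ M * y i ∧ M * y i ≤ (c : ℕ) + 1 := by
      intro i
      have e0 : 0 ≤ M * y i := mul_nonneg hMr.le (hy0 i)
      have e1 : M * y i ≤ M := by
        calc M * y i ≤ M * 1 := mul_le_mul_of_nonneg_left (hy1 i) hMr.le
          _ = M := mul_one _
      by_cases h : ⌊M * y i⌋₊ < M
      · exact ⟨⟨_, h⟩, Nat.floor_le e0, (Nat.lt_floor_add_one _).le⟩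
      · push Not at h
        have e2 : (M : ℝ) ≤ M * y i := le_trans (by exact_mod_cast h) (Nat.floor_le e0)
        refine ⟨⟨M - 1, by omega⟩, ?_, ?_⟩
        · show ((M - 1 : ℕ) : ℝ) ≤ _
          rw [Nat.cast_sub hM0]
          push_cast
          linarith
        · show _ ≤ ((M - 1 : ℕ) : ℝ) + 1
          rw [Nat.cast_sub hM0]
          push_cast
          linarith
    choose c hc1 hc2 using hc
    rw [mem_iUnion₂]
    refine ⟨c, ?_, ?_⟩
    · unfold cz
      rw [Finset.mem_filter]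
      refine ⟨Finset.mem_univ _, y, fun i => ⟨?_, ?_⟩, ?_⟩
      · unfold cl
        rw [div_le_iff₀ hMr, mul_comm]
        exact hc1 i
      · unfold cu
        rw [le_div_iff₀ hMr, mul_comm]
        exact hc2 i
      · rw [hF', PWE.eval_aff]
        have h2 : ((fun _ => -2 * ρ) + (fun _ => 4 * ρ) * y : Fin (N + 1) → ℝ) = q := by
          funext i
          simp only [Pi.add_apply, Pi.mul_apply, hy]
          field_simp
          ring
        rw [h2]
        exact hq
    · have hqy : ∀ i, q i = -2 * ρ + 4 * ρ * y i := by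
        intro i
        simp only [hy]
        field_simp
        ring
      have hstep : r ≤ 8 * ρ / M := by
        rw [le_div_iff₀ hMr]
        linarith
      constructor
      · intro i
        show -2 * ρ + 4 * ρ * (((c i : ℕ) : ℝ) - 2) / M ≤ x i
        have e1 := (abs_le.1 (hxq i)).1
        have e2 : 4 * ρ * ((c i : ℕ) : ℝ) / M ≤ 4 * ρ * y i := by
          rw [div_le_iff₀ hMr]
          have := mul_le_mul_of_nonneg_left (hc1 i) (by linarith : 0 ≤ 4 * ρ)
          linarith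
        have e3 : 4 * ρ * (((c i : ℕ) : ℝ) - 2) / M = 4 * ρ * ((c i : ℕ) : ℝ) / M - 8 * ρ / M := by
          ring
        have e4 := hqy i
        rw [e3]
        linarith
      · intro i
        show x i ≤ -2 * ρ + 4 * ρ * (((c i : ℕ) : ℝ) + 3) / M
        have e1 := (abs_le.1 (hxq i)).2
        have e2 : 4 * ρ * y i ≤ 4 * ρ * (((c i : ℕ) : ℝ) + 1) / M := by
          rw [le_div_iff₀ hMr]
          have := mul_le_mul_of_nonneg_left (hc2 i) (by linarith : 0 ≤ 4 * ρ)
          linarith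
        have e3 : 4 * ρ * (((c i : ℕ) : ℝ) + 3) / M = 4 * ρ * (((c i : ℕ) : ℝ) + 1) / M + 8 * ρ / M := by
          ring
        have e4 := hqy i
        rw [e3]
        linarith
  calc volume (Tb F ρ r) ≤ volume (⋃ c ∈ cz M F', Set.Icc (fun i : Fin (N + 1) =>
      -2 * ρ + 4 * ρ * (((c i : ℕ) : ℝ) - 2) / M) (fun i => -2 * ρ + 4 * ρ * (((c i : ℕ) : ℝ) + 3) / M)) :=
        measure_mono hsub
    _ ≤ ∑ c ∈ cz M F', volume (Set.Icc (fun i : Fin (N + 1) =>
      -2 * ρ + 4 * ρ * (((c i : ℕ) : ℝ) - 2) / M) (fun i => -2 * ρ + 4 * ρ * (((c i : ℕ) : ℝ) + 3) / M)) :=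
        measure_biUnion_finset_le _ _
    _ = ∑ c ∈ cz M F', ENNReal.ofReal ((20 * ρ / M) ^ (N + 1)) := by
        refine Finset.sum_congr rfl fun c _ => ?_
        rw [Real.volume_Icc_pi]
        have e1 : ∀ i : Fin (N + 1), (-2 * ρ + 4 * ρ * (((c i : ℕ) : ℝ) + 3) / M) -
            (-2 * ρ + 4 * ρ * (((c i : ℕ) : ℝ) - 2) / M) = 20 * ρ / M := by
          intro i
          ring
        simp_rw [e1]
        rw [Finset.prod_const, Finset.card_univ, Fintype.card_fin, ENNReal.ofReal_pow (by positivity)]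
    _ = ((cz M F').card : ℝ≥0∞) * ENNReal.ofReal ((20 * ρ / M) ^ (N + 1)) := by
        rw [Finset.sum_const, nsmul_eq_mul]
    _ = ENNReal.ofReal ((cz M F').card * (20 * ρ / M) ^ (N + 1)) := by
        rw [ENNReal.ofReal_mul (Nat.cast_nonneg _), ENNReal.ofReal_natCast]
    _ ≤ ENNReal.ofReal (((C * 5 * 20 ^ N : ℕ) : ℝ) * (ρ ^ N * r)) := by
        apply ENNReal.ofReal_le_ofReal
        have e1 : ((cz M F').card : ℝ) ≤ C * (M : ℝ) ^ N := by exact_mod_cast hcard
        have e2 : 1 / (M : ℝ) ≤ r / (4 * ρ) := by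
          rw [div_le_div_iff₀ hMr (by linarith)]
          linarith
        calc ((cz M F').card : ℝ) * (20 * ρ / M) ^ (N + 1) ≤
              (C * (M : ℝ) ^ N) * (20 * ρ / M) ^ (N + 1) :=
              mul_le_mul_of_nonneg_right e1 (by positivity)
          _ = C * (20 * ρ) ^ (N + 1) * (1 / (M : ℝ)) := by
              rw [div_pow]
              field_simp
              ring
          _ ≤ C * (20 * ρ) ^ (N + 1) * (r / (4 * ρ)) :=
              mul_le_mul_of_nonneg_left e2 (by positivity)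
          _ = ((C * 5 * 20 ^ N : ℕ) : ℝ) * (ρ ^ N * r) := by
              push_cast
              field_simp
              ring

end Pool.Agent.Helper59.EN
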