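import Pool.Agent.Helper59.EN.Slice

/-! The polynomial Wolff axiom for tubes of hypersurfaces. -/

set_option autoImplicit false

namespace Pool.Agent.Helper59.EN

open Set MvPolynomial MeasureTheory Filter Topology
open scoped ENNReal

variable {m : ℕ}

theorem sq_small {a b r : ℝ} {m : ℕ} (hr : 0 < r) (ha : 0 ≤ a)
    (h : (1 / (2 * ((m : ℝ) + 1) * r ^ 2)) * b ^ 2 + a ≤ m + 2) : |b| ≤ 2 * (m + 2) * r := by
  have hm : (0 : ℝ) < (m : ℝ) + 1 := by positivity
  have h1 : (1 / (2 * ((m : ℝ) + 1) * r ^ 2)) * b ^ 2 ≤ m + 2 := by linarith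
  have h2 : b ^ 2 ≤ (m + 2) * (2 * ((m : ℝ) + 1) * r ^ 2) := by
    rw [one_div, ← div_eq_inv_mul, div_le_iff₀ (by positivity)] at h1
    exact h1
  have h3 : (m + 2) * (2 * ((m : ℝ) + 1) * r ^ 2) ≤ (2 * (m + 2) * r) ^ 2 := by
    have h4 : (2 * ((m : ℝ) + 2) * r) ^ 2 - (m + 2) * (2 * ((m : ℝ) + 1) * r ^ 2) =
        (m + 2) * (2 * m + 6) * r ^ 2 := by ring
    have h5 : 0 ≤ ((m : ℝ) + 2) * (2 * m + 6) * r ^ 2 := by positivity
    linarith
  exact abs_le_of_sq_le_sq (h2.trans h3) (by positivity)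

theorem PsT_bounds (F : MvPolynomial (Fin (m + 1)) ℝ) (Λ t ρ r : ℝ) (hΛ : 0 ≤ Λ) (hρ : 0 < ρ)
    (hr : 0 < r) (P : Fin m → ℝ) (q : Fin (m + 1) → ℝ)
    (h : eval (Sum.elim P q) (PsT F Λ t (1 / (2 * ((m : ℝ) + 1) * r ^ 2))
      (1 / (2 * ((m : ℝ) + 1) * ρ ^ 2))) ≤ m + 2) :
    Λ * (eval q F) ^ 2 ≤ m + 2 ∧ |t - q 0| ≤ 2 * (m + 2) * r ∧
    (∀ i : Fin m, |P i - q i.succ| ≤ 2 * (m + 2) * r) ∧ ∀ i : Fin m, |P i| ≤ 2 * (m + 2) * ρ := by
  rw [eval_PsT] at h
  have hm : (0 : ℝ) < (m : ℝ) + 1 := by positivity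
  have hα : 0 ≤ 1 / (2 * ((m : ℝ) + 1) * r ^ 2) := by positivity
  have hβ : 0 ≤ 1 / (2 * ((m : ℝ) + 1) * ρ ^ 2) := by positivity
  have e1 : 0 ≤ Λ * (eval q F) ^ 2 := by positivity
  have e2 : 0 ≤ ∑ i : Fin m, (P i - q i.succ) ^ 2 := Finset.sum_nonneg fun i _ => sq_nonneg _
  have e3 : 0 ≤ ∑ i : Fin m, (P i) ^ 2 := Finset.sum_nonneg fun i _ => sq_nonneg _
  have e4 := mul_nonneg hα e2
  have e5 := mul_nonneg hβ e3
  have e6 := mul_nonneg hα (sq_nonneg (q 0 - t))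
  rw [mul_add] at h
  refine ⟨by linarith, ?_, fun i => ?_, fun i => ?_⟩
  · rw [abs_sub_comm]
    refine sq_small hr (a := Λ * (eval q F) ^ 2 + (1 / (2 * ((m : ℝ) + 1) * r ^ 2)) *
      ∑ i : Fin m, (P i - q i.succ) ^ 2 + (1 / (2 * ((m : ℝ) + 1) * ρ ^ 2)) * ∑ i : Fin m, (P i) ^ 2)
      (by linarith) (by linarith)
  · have e7 : (P i - q i.succ) ^ 2 ≤ ∑ i : Fin m, (P i - q i.succ) ^ 2 :=
      Finset.single_le_sum (f := fun i : Fin m => (P i - q i.succ) ^ 2) (fun i _ => sq_nonneg _)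
        (Finset.mem_univ i)
    have e8 := mul_le_mul_of_nonneg_left e7 hα
    exact sq_small hr (a := 0) le_rfl (by linarith)
  · have e7 : (P i) ^ 2 ≤ ∑ i : Fin m, (P i) ^ 2 :=
      Finset.single_le_sum (f := fun i : Fin m => (P i) ^ 2) (fun i _ => sq_nonneg _)
        (Finset.mem_univ i)
    have e8 := mul_le_mul_of_nonneg_left e7 hβ
    exact sq_small hρ (a := 0) le_rfl (by linarith)

/-- the container with parameter `Λ` -/
def Ac (F : MvPolynomial (Fin (m + 1)) ℝ) (t ρ r Λ : ℝ) : Set (Fin m → ℝ) :=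
  {P | ∃ q : Fin (m + 1) → ℝ, eval (Sum.elim P q) (PsT F Λ t (1 / (2 * ((m : ℝ) + 1) * r ^ 2))
      (1 / (2 * ((m : ℝ) + 1) * ρ ^ 2))) ≤ m + 2}

theorem isCompact_Ac (F : MvPolynomial (Fin (m + 1)) ℝ) (t ρ r Λ : ℝ) (hΛ : 0 ≤ Λ) (hρ : 0 < ρ)
    (hr : 0 < r) : IsCompact (Ac F t ρ r Λ) := by
  set T : Set ((Fin m → ℝ) × (Fin (m + 1) → ℝ)) := {z | eval (Sum.elim z.1 z.2)
    (PsT F Λ t (1 / (2 * ((m : ℝ) + 1) * r ^ 2)) (1 / (2 * ((m : ℝ) + 1) * ρ ^ 2))) ≤ m + 2} with hT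
  have h1 : Ac F t ρ r Λ = Prod.fst '' T := by
    ext P
    constructor
    · rintro ⟨q, hq⟩
      exact ⟨(P, q), hq, rfl⟩
    · rintro ⟨⟨P', q⟩, hq, rfl⟩
      exact ⟨q, hq⟩
  rw [h1]
  refine IsCompact.image ?_ continuous_fst
  have hcl : IsClosed T :=
    isClosed_le ((MvPolynomial.continuous_eval _).comp PWE.continuous_elim) continuous_const
  have hbd : Bornology.IsBounded T := by
    refine (Metric.isBounded_closedBall (x := (0 : (Fin m → ℝ) × (Fin (m + 1) → ℝ)))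
      (r := 2 * (m + 2) * ρ + 2 * (m + 2) * r + |t|)).subset ?_
    rintro ⟨P, q⟩ hz
    obtain ⟨_, h0, hs, hP⟩ := PsT_bounds F Λ t ρ r hΛ hρ hr P q hz
    have p1 : 0 ≤ 2 * ((m : ℝ) + 2) * ρ := by positivity
    have p2 : 0 ≤ 2 * ((m : ℝ) + 2) * r := by positivity
    have p3 := abs_nonneg t
    rw [mem_closedBall_zero_iff, Prod.norm_def, max_le_iff]
    constructor
    · refine (pi_norm_le_iff_of_nonneg (by positivity)).2 fun i => ?_
      rw [Real.norm_eq_abs]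
      have := hP i
      show |P i| ≤ _
      linarith
    · refine (pi_norm_le_iff_of_nonneg (by positivity)).2 fun i => ?_
      rw [Real.norm_eq_abs]
      refine Fin.cases ?_ (fun i => ?_) i
      · show |q 0| ≤ _
        have h3 : |q 0| ≤ |t - q 0| + |t| := by
          have := abs_sub_abs_le_abs_sub (q 0) t
          rw [abs_sub_comm] at this
          linarith
        linarith
      · show |q i.succ| ≤ _
        have h3 : |q i.succ| ≤ |P i - q i.succ| + |P i| := by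
          have := abs_sub_abs_le_abs_sub (q i.succ) (P i)
          rw [abs_sub_comm] at this
          linarith
        have h4 := hs i
        have h5 := hP i
        linarith
  exact Metric.isCompact_of_isClosed_isBounded hcl hbd

theorem iInter_Ac (F : MvPolynomial (Fin (m + 1)) ℝ) (t ρ r : ℝ) (hρ : 0 < ρ) (hr : 0 < r) :
    (⋂ n : ℕ, Ac F t ρ r n) ⊆ Sl F t (2 * (m + 2) * ρ) (2 * (m + 2) * r) := by
  intro P hP
  rw [mem_iInter] at hP
  have hb : ∀ n : ℕ, ∃ q : Fin (m + 1) → ℝ, (n : ℝ) * (eval q F) ^ 2 ≤ m + 2 ∧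
      |t - q 0| ≤ 2 * (m + 2) * r ∧ (∀ i : Fin m, |P i - q i.succ| ≤ 2 * (m + 2) * r) ∧
      ∀ i : Fin m, |P i| ≤ 2 * (m + 2) * ρ := by
    intro n
    obtain ⟨q, hq⟩ := hP n
    exact ⟨q, PsT_bounds F n t ρ r (Nat.cast_nonneg n) hρ hr P q hq⟩
  obtain ⟨q0, hq0⟩ := hb 0
  set Q : Set (Fin (m + 1) → ℝ) := {q | |t - q 0| ≤ 2 * (m + 2) * r ∧
    ∀ i : Fin m, |P i - q i.succ| ≤ 2 * (m + 2) * r} with hQ
  have hQc : IsCompact Q := by
    have h1 : Q = Set.pi Set.univ (fun j : Fin (m + 1) =>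
        Metric.closedBall ((Fin.cons t P : Fin (m + 1) → ℝ) j) (2 * (m + 2) * r)) := by
      ext q
      constructor
      · rintro ⟨h0, hs⟩ j _
        rw [Metric.mem_closedBall, Real.dist_eq, abs_sub_comm]
        refine Fin.cases ?_ (fun i => ?_) j
        · exact h0
        · exact hs i
      · intro h
        constructor
        · have := h 0 (Set.mem_univ _)
          rw [Metric.mem_closedBall, Real.dist_eq, abs_sub_comm] at this
          exact this
        · intro i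
          have := h i.succ (Set.mem_univ _)
          rw [Metric.mem_closedBall, Real.dist_eq, abs_sub_comm] at this
          exact this
    rw [h1]
    exact isCompact_univ_pi fun j => isCompact_closedBall _ _
  obtain ⟨q, hqQ, hqm⟩ := hQc.exists_isMinOn ⟨q0, hq0.2.1, hq0.2.2.1⟩
    (f := fun q => (eval q F) ^ 2) ((MvPolynomial.continuous_eval F).pow 2).continuousOn
  refine ⟨hq0.2.2.2, q, ?_, hqQ.1, hqQ.2⟩
  by_contra hne
  have hpos : 0 < (eval q F) ^ 2 := by positivity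
  obtain ⟨n, hn⟩ := exists_nat_gt (((m : ℝ) + 2) / (eval q F) ^ 2)
  obtain ⟨q', h1, h2, h3, _⟩ := hb n
  have h4 : (eval q F) ^ 2 ≤ (eval q' F) ^ 2 := hqm ⟨h2, h3⟩
  rw [div_lt_iff₀ hpos] at hn
  have h5 := mul_le_mul_of_nonneg_left h4 (Nat.cast_nonneg (α := ℝ) n)
  linarith

/-- the polynomial Wolff axiom for tubes of hypersurfaces -/
theorem wolffS (m D : ℕ) : ∃ C : ℕ, ∀ F : MvPolynomial (Fin (m + 1)) ℝ, F.totalDegree ≤ D →
    ∀ ρ r : ℝ, 0 < ρ → 0 < r → ∀ t : Fin (m + 1) → ℝ, Function.Injective t →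
    volume {x : Fin m → ℝ | ∃ a : Fin m → ℝ, ∀ l, a + t l • x ∈ Sl F (t l) ρ r} ≤
      ∑ k, ENNReal.ofReal (PWE.wgt t k) *
        (C * volume (Sl F (t k) (2 * (m + 2) * ρ) (2 * (m + 2) * r))) := by
  refine ⟨((m + (m + 1) * (m + 1) + 1) * (2 * D + 1)) ^ (m + (m + 1) * (m + 1)),
    fun F hD ρ r hρ hr t ht => ?_⟩
  set K : ℕ := ((m + (m + 1) * (m + 1) + 1) * (2 * D + 1)) ^ (m + (m + 1) * (m + 1)) with hK
  -- the blocks of auxiliary variables
  let e : Fin (m + 1) → Fin (m + 1) → Fin ((m + 1) * (m + 1)) := fun l j => finProdFinEquiv (l, j)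
  let Ψ : ℕ → Fin (m + 1) → MvPolynomial (Fin m ⊕ Fin ((m + 1) * (m + 1))) ℝ := fun n l =>
    rename (Sum.map id (e l)) (PsT F n (t l) (1 / (2 * ((m : ℝ) + 1) * r ^ 2))
      (1 / (2 * ((m : ℝ) + 1) * ρ ^ 2)))
  have hΨe : ∀ n l (P : Fin m → ℝ) (p : Fin ((m + 1) * (m + 1)) → ℝ),
      eval (Sum.elim P p) (Ψ n l) = eval (Sum.elim P (fun j => p (e l j)))
        (PsT F n (t l) (1 / (2 * ((m : ℝ) + 1) * r ^ 2)) (1 / (2 * ((m : ℝ) + 1) * ρ ^ 2))) := by
    intro n l P p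
    simp only [Ψ]
    rw [eval_rename]
    congr 2
    funext i
    rcases i with i | i <;> rfl
  have hα : 0 ≤ 1 / (2 * ((m : ℝ) + 1) * r ^ 2) := by positivity
  have hβ : 0 ≤ 1 / (2 * ((m : ℝ) + 1) * ρ ^ 2) := by positivity
  have hstep : ∀ n : ℕ, volume {x : Fin m → ℝ | ∃ a : Fin m → ℝ, ∀ l, a + t l • x ∈ Sl F (t l) ρ r} ≤
      ∑ k, ENNReal.ofReal (PWE.wgt t k) * (K * volume (Ac F (t k) ρ r n)) := by
    intro n
    have h1 := PWE.wolffE (m := m) (q := (m + 1) * (m + 1)) (2 * D + 1) (by omega) t ht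
      (Ψ n) (fun l => (totalDegree_rename_le _ _).trans (tdeg_PsT F _ _ _ _ D hD)) (fun l z => by
        have hz : z = Sum.elim (fun i => z (Sum.inl i)) (fun i => z (Sum.inr i)) := by
          funext i
          rcases i with i | i <;> rfl
        rw [hz, hΨe, eval_PsT]
        have e2 : 0 ≤ ∑ i : Fin m, (z (Sum.inl i) - z (Sum.inr (e l i.succ))) ^ 2 :=
          Finset.sum_nonneg fun i _ => sq_nonneg _
        have e3 : 0 ≤ ∑ i : Fin m, (z (Sum.inl i)) ^ 2 := Finset.sum_nonneg fun i _ => sq_nonneg _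
        positivity)
    refine le_trans (measure_mono ?_) (h1.trans (Finset.sum_le_sum fun k _ => ?_))
    · rintro x ⟨a, ha⟩
      choose hP q hq0 hqt hqs using ha
      refine ⟨a, fun s => q (finProdFinEquiv.symm s).1 (finProdFinEquiv.symm s).2, fun l => ?_⟩
      rw [hΨe]
      have e1 : (fun j => q (finProdFinEquiv.symm (e l j)).1 (finProdFinEquiv.symm (e l j)).2) =
          q l := by
        funext j
        simp only [e, Equiv.symm_apply_apply]
      rw [e1, eval_PsT, hq0 l]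
      have e2 : (q l 0 - t l) ^ 2 ≤ r ^ 2 := by
        rw [sq_le_sq, abs_sub_comm, abs_of_pos hr]
        exact hqt l
      have e3 : ∑ i : Fin m, ((a + t l • x) i - q l i.succ) ^ 2 ≤ m * r ^ 2 := by
        calc _ ≤ ∑ _i : Fin m, r ^ 2 := Finset.sum_le_sum fun i _ => by
              rw [sq_le_sq, abs_of_pos hr]
              exact hqs l i
          _ = m * r ^ 2 := by rw [Finset.sum_const, Finset.card_univ, Fintype.card_fin, nsmul_eq_mul]
      have e4 : ∑ i : Fin m, ((a + t l • x) i) ^ 2 ≤ m * ρ ^ 2 := by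
        calc _ ≤ ∑ _i : Fin m, ρ ^ 2 := Finset.sum_le_sum fun i _ => by
              rw [sq_le_sq, abs_of_pos hρ]
              exact hP l i
          _ = m * ρ ^ 2 := by rw [Finset.sum_const, Finset.card_univ, Fintype.card_fin, nsmul_eq_mul]
      have hm1 : (0 : ℝ) < (m : ℝ) + 1 := by positivity
      have e5 : (1 / (2 * ((m : ℝ) + 1) * r ^ 2)) * ((q l 0 - t l) ^ 2 +
          ∑ i : Fin m, ((a + t l • x) i - q l i.succ) ^ 2) ≤ 1 / 2 := by
        calc _ ≤ (1 / (2 * ((m : ℝ) + 1) * r ^ 2)) * (r ^ 2 + m * r ^ 2) :=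
              mul_le_mul_of_nonneg_left (add_le_add e2 e3) hα
          _ = 1 / 2 := by
              field_simp
              ring
      have e6 : (1 / (2 * ((m : ℝ) + 1) * ρ ^ 2)) * ∑ i : Fin m, ((a + t l • x) i) ^ 2 ≤ 1 / 2 := by
        calc _ ≤ (1 / (2 * ((m : ℝ) + 1) * ρ ^ 2)) * (m * ρ ^ 2) :=
              mul_le_mul_of_nonneg_left e4 hβ
          _ ≤ (1 / (2 * ((m : ℝ) + 1) * ρ ^ 2)) * (((m : ℝ) + 1) * ρ ^ 2) := by
              apply mul_le_mul_of_nonneg_left _ hβ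
              apply mul_le_mul_of_nonneg_right _ (by positivity)
              linarith
          _ = 1 / 2 := by
              field_simp
      have e7 : (n : ℝ) * (0 : ℝ) ^ 2 = 0 := by ring
      rw [e7]
      linarith
    · refine mul_le_mul_right (le_of_eq ?_) _
      rw [← hK]
      congr 2
      ext P
      constructor
      · rintro ⟨p, hp⟩
        rw [hΨe] at hp
        exact ⟨_, hp⟩
      · rintro ⟨q, hq⟩
        refine ⟨fun s => q (finProdFinEquiv.symm s).2, ?_⟩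
        show eval (Sum.elim P _) (Ψ n k) ≤ _
        rw [hΨe]
        have e1 : (fun j => q (finProdFinEquiv.symm (e k j)).2) = q := by
          funext j
          simp only [e, Equiv.symm_apply_apply]
        rw [e1]
        exact hq
  -- the limit
  have hlim : ∀ k : Fin (m + 1), Tendsto (fun n : ℕ => volume (Ac F (t k) ρ r n)) atTop
      (𝓝 (volume (⋂ n : ℕ, Ac F (t k) ρ r n))) := by
    intro k
    refine tendsto_measure_iInter_atTop (fun n => (isCompact_Ac F (t k) ρ r n (Nat.cast_nonneg n)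
      hρ hr).isClosed.measurableSet.nullMeasurableSet) ?_ ⟨0, ?_⟩
    · intro n n' hn P hP
      obtain ⟨q, hq⟩ := hP
      refine ⟨q, le_trans ?_ hq⟩
      rw [eval_PsT, eval_PsT]
      have e1 : (n : ℝ) * (eval q F) ^ 2 ≤ (n' : ℝ) * (eval q F) ^ 2 :=
        mul_le_mul_of_nonneg_right (by exact_mod_cast hn) (sq_nonneg _)
      linarith
    · exact (isCompact_Ac F (t k) ρ r _ (Nat.cast_nonneg _) hρ hr).measure_lt_top.ne
  have hfin : ∀ k : Fin (m + 1), volume (⋂ n : ℕ, Ac F (t k) ρ r n) ≠ ⊤ := fun k =>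
    ((measure_mono (iInter_subset _ 0)).trans_lt
      (isCompact_Ac F (t k) ρ r _ (Nat.cast_nonneg _) hρ hr).measure_lt_top).ne
  have hlim2 : Tendsto (fun n : ℕ => ∑ k, ENNReal.ofReal (PWE.wgt t k) *
      (K * volume (Ac F (t k) ρ r n))) atTop (𝓝 (∑ k, ENNReal.ofReal (PWE.wgt t k) *
      (K * volume (⋂ n : ℕ, Ac F (t k) ρ r n)))) := by
    refine tendsto_finsetSum _ fun k _ => ?_
    refine ENNReal.Tendsto.const_mul (ENNReal.Tendsto.const_mul (hlim k)
      (Or.inr (ENNReal.natCast_ne_top K))) (Or.inr ENNReal.ofReal_ne_top)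
  refine (ge_of_tendsto' hlim2 hstep).trans (Finset.sum_le_sum fun k _ => ?_)
  exact mul_le_mul_right (mul_le_mul_right (measure_mono (iInter_Ac F (t k) ρ r hρ hr)) _) _

end Pool.Agent.Helper59.EN
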